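import Pool.Agent.Work.MP_abe657_gt.T2.Defs

/-!
# MP_abe657_gt, part T2, NullFrame: a null frame of a surface and the Laplacian in it (helper28)
-/

set_option autoImplicit false
set_option linter.unusedVariables false

namespace Pool.Agent.Work.MP_abe657_gt.T2

variable {Ω : Type} [Field Ω] [Algebra ℂ Ω]

/-- the derivation `p d + q e` -/
noncomputable def comb (d e : Derivation ℂ Ω Ω) (p q : Ω) : Derivation ℂ Ω Ω := p • d + q • e

theorem comb_apply (d e : Derivation ℂ Ω Ω) (p q u : Ω) : comb d e p q u = p * d u + q * e u := by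
  simp [comb]

/-- null directions of a nondegenerate quadratic form -/
theorem exists_null [IsAlgClosed Ω] [CharZero Ω] (g11 g12 g22 : Ω) (hdet : g11 * g22 - g12 ^ 2 ≠ 0) :
    ∃ p1 q1 p2 q2 : Ω, g11 * p1 ^ 2 + 2 * g12 * p1 * q1 + g22 * q1 ^ 2 = 0 ∧
      g11 * p2 ^ 2 + 2 * g12 * p2 * q2 + g22 * q2 ^ 2 = 0 ∧
      g11 * p1 * p2 + g12 * (p1 * q2 + p2 * q1) + g22 * q1 * q2 = 1 := by
  by_cases h : g22 = 0
  · have h12 : g12 ≠ 0 := by
      rintro rfl
      apply hdet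
      rw [h]; ring
    refine ⟨0, 1, 1 / g12, (1 / g12) * (-g11 / (2 * g12)), ?_, ?_, ?_⟩
    · rw [h]; ring
    · rw [h]; field_simp; ring
    · rw [h]; field_simp; ring
  · obtain ⟨w, hw⟩ := IsAlgClosed.exists_pow_nat_eq (g12 ^ 2 - g11 * g22) (n := 2) (by norm_num)
    refine ⟨1, (-g12 + w) / g22, g22 / (2 * (g11 * g22 - g12 ^ 2)),
      g22 / (2 * (g11 * g22 - g12 ^ 2)) * ((-g12 - w) / g22), ?_, ?_, ?_⟩
    · field_simp
      linear_combination hw
    · field_simp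
      linear_combination g22 * hw
    · field_simp
      linear_combination -hw

theorem null_solve {g11 g12 g22 p1 q1 p2 q2 : Ω}
    (n1 : g11 * p1 ^ 2 + 2 * g12 * p1 * q1 + g22 * q1 ^ 2 = 0)
    (n2 : g11 * p2 ^ 2 + 2 * g12 * p2 * q2 + g22 * q2 ^ 2 = 0)
    (n3 : g11 * p1 * p2 + g12 * (p1 * q2 + p2 * q1) + g22 * q1 * q2 = 1) :
    p1 * q2 - p2 * q1 ≠ 0 ∧ (p1 * q2 - p2 * q1) ^ 2 * g11 = -2 * q1 * q2 ∧
      (p1 * q2 - p2 * q1) ^ 2 * g12 = p1 * q2 + p2 * q1 ∧
      (p1 * q2 - p2 * q1) ^ 2 * g22 = -2 * p1 * p2 ∧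
      (p1 * q2 - p2 * q1) ^ 2 * (g11 * g22 - g12 ^ 2) = -1 := by
  haveI : CharZero Ω := charZero_of_injective_algebraMap (algebraMap ℂ Ω).injective
  have e1 : (p1 * q2 - p2 * q1) ^ 2 * g11 = -2 * q1 * q2 := by
    linear_combination q2 ^ 2 * n1 + q1 ^ 2 * n2 - 2 * q1 * q2 * n3
  have e2 : (p1 * q2 - p2 * q1) ^ 2 * g12 = p1 * q2 + p2 * q1 := by
    linear_combination -(p2 * q2) * n1 - (p1 * q1) * n2 + (p1 * q2 + p2 * q1) * n3
  have e3 : (p1 * q2 - p2 * q1) ^ 2 * g22 = -2 * p1 * p2 := by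
    linear_combination p2 ^ 2 * n1 + p1 ^ 2 * n2 - 2 * p1 * p2 * n3
  have hW : p1 * q2 - p2 * q1 ≠ 0 := by
    intro h
    rw [h] at e1 e2 e3
    have f1 : q1 * q2 = 0 := by linear_combination (1 / 2 : Ω) * e1
    have f2 : p1 * p2 = 0 := by linear_combination (1 / 2 : Ω) * e3
    have f3 : p1 * q2 + p2 * q1 = 0 := by linear_combination -e2
    apply one_ne_zero (α := Ω)
    linear_combination -n3 + g11 * f2 + g12 * f3 + g22 * f1
  refine ⟨hW, e1, e2, e3, ?_⟩
  have h : (p1 * q2 - p2 * q1) ^ 2 * ((p1 * q2 - p2 * q1) ^ 2 * (g11 * g22 - g12 ^ 2))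
      = (p1 * q2 - p2 * q1) ^ 2 * (-1) := by
    linear_combination (p1 * q2 - p2 * q1) ^ 2 * g22 * e1 + (-2 * q1 * q2) * e3
      - ((p1 * q2 - p2 * q1) ^ 2 * g12 + (p1 * q2 + p2 * q1)) * e2
  exact mul_left_cancel₀ (pow_ne_zero 2 hW) h

/-- the Laplacian in a null frame -/
theorem lapFun_null (d e : Derivation ℂ Ω Ω) (hde : ∀ u, d (e u) = e (d u))
    {g11 g12 g22 p1 q1 p2 q2 : Ω}
    (n1 : g11 * p1 ^ 2 + 2 * g12 * p1 * q1 + g22 * q1 ^ 2 = 0)
    (n2 : g11 * p2 ^ 2 + 2 * g12 * p2 * q2 + g22 * q2 ^ 2 = 0)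
    (n3 : g11 * p1 * p2 + g12 * (p1 * q2 + p2 * q1) + g22 * q1 * q2 = 1) :
    ∃ al be : Ω, (∀ u, comb d e p1 q1 (comb d e p2 q2 u) - comb d e p2 q2 (comb d e p1 q1 u)
        = be * comb d e p1 q1 u - al * comb d e p2 q2 u) ∧
      (∀ u, lapFun d e g11 g12 g22 u = -(comb d e p1 q1 (comb d e p2 q2 u)
        + comb d e p2 q2 (comb d e p1 q1 u) + al * comb d e p2 q2 u + be * comb d e p1 q1 u)) := by
  haveI : CharZero Ω := charZero_of_injective_algebraMap (algebraMap ℂ Ω).injective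
  obtain ⟨hW, e1, e2, e3, e4⟩ := null_solve n1 n2 n3
  set W : Ω := p1 * q2 - p2 * q1 with hWd
  have hdW : ∀ D : Derivation ℂ Ω Ω, D W = q2 * D p1 + p1 * D q2 - (q1 * D p2 + p2 * D q1) := by
    intro D
    rw [hWd, map_sub, Derivation.leibniz, Derivation.leibniz]
    simp only [smul_eq_mul]
    ring
  refine ⟨d p1 + e q1 - comb d e p1 q1 W / W, d p2 + e q2 - comb d e p2 q2 W / W, ?_, ?_⟩
  · intro u
    simp only [comb_apply, map_add, Derivation.leibniz, smul_eq_mul]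
    rw [hdW d, hdW e, hde u]
    field_simp
    rw [hWd]
    ring
  · intro u
    have hdet0 : g11 * g22 - g12 ^ 2 ≠ 0 := by
      intro h
      rw [h] at e4
      simp at e4
    have k1 : (g22 * d u - g12 * e u) / (g11 * g22 - g12 ^ 2)
        = p1 * (p2 * d u + q2 * e u) + p2 * (p1 * d u + q1 * e u) := by
      rw [div_eq_iff hdet0]
      have : W ^ 2 * (g22 * d u - g12 * e u) = W ^ 2 * ((p1 * (p2 * d u + q2 * e u)
          + p2 * (p1 * d u + q1 * e u)) * (g11 * g22 - g12 ^ 2)) := by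
        linear_combination d u * e3 - e u * e2 - (p1 * (p2 * d u + q2 * e u)
          + p2 * (p1 * d u + q1 * e u)) * e4
      exact mul_left_cancel₀ (pow_ne_zero 2 hW) this
    have k2 : (g11 * e u - g12 * d u) / (g11 * g22 - g12 ^ 2)
        = q1 * (p2 * d u + q2 * e u) + q2 * (p1 * d u + q1 * e u) := by
      rw [div_eq_iff hdet0]
      have : W ^ 2 * (g11 * e u - g12 * d u) = W ^ 2 * ((q1 * (p2 * d u + q2 * e u)
          + q2 * (p1 * d u + q1 * e u)) * (g11 * g22 - g12 ^ 2)) := by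
        linear_combination e u * e1 - d u * e2 - (q1 * (p2 * d u + q2 * e u)
          + q2 * (p1 * d u + q1 * e u)) * e4
      exact mul_left_cancel₀ (pow_ne_zero 2 hW) this
    have k3 : ∀ D : Derivation ℂ Ω Ω,
        D (g11 * g22 - g12 ^ 2) / (2 * (g11 * g22 - g12 ^ 2)) = -(D W) / W := by
      intro D
      have := congrArg D e4
      rw [Derivation.leibniz, Derivation.leibniz_pow] at this
      simp only [smul_eq_mul, nsmul_eq_mul, map_neg, Derivation.map_one_eq_zero, neg_zero] at this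
      push_cast at this
      rw [div_eq_div_iff (mul_ne_zero two_ne_zero hdet0) hW]
      have h2 : W * (D (g11 * g22 - g12 ^ 2) * W) = W * (-(D W) * (2 * (g11 * g22 - g12 ^ 2))) := by
        have h3 : W ^ (2 - 1) = W := by norm_num
        rw [h3] at this
        linear_combination this
      exact mul_left_cancel₀ hW h2
    rw [lapFun, k1, k2, k3, k3]
    simp only [comb_apply, map_add, Derivation.leibniz, smul_eq_mul]
    rw [hde u]
    field_simp
    ring

end Pool.Agent.Work.MP_abe657_gt.T2
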