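import Pool.Agent.Work.MP_abe657_gt.T2.Defs

/-!
# MP_abe657_gt, part T2, Geo: the structure equations of a surface in a null frame (helper28)
-/

set_option autoImplicit false
set_option linter.unusedVariables false

namespace Pool.Agent.Work.MP_abe657_gt.T2

variable {Ω : Type} [Field Ω] [Algebra ℂ Ω]

theorem dp_comm (u v : Fin 3 → Ω) : dp u v = dp v u := by simp only [dp]; ring

theorem D_dp (D : Derivation ℂ Ω Ω) (u v : Fin 3 → Ω) :
    D (dp u v) = dp (dv D u) v + dp u (dv D v) := by
  simp only [dp, dv, map_add, Derivation.leibniz, smul_eq_mul]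
  ring

/-- expansion in the frame `ξ, η, ν` -/
theorem expand (xi et v : Fin 3 → Ω) (h11 : dp xi xi = 0) (h22 : dp et et = 0) (h12 : dp xi et = 1)
    (i : Fin 3) : v i = dp v et * xi i + dp v xi * et i + dp v (icr xi et) * icr xi et i := by
  have hI : (algebraMap ℂ Ω Complex.I) ^ 2 = -1 := by
    rw [← map_pow, Complex.I_sq, map_neg, map_one]
  have hcr : ∀ i, dp v (icr xi et) * icr xi et i = -(dp v (cr xi et) * cr xi et i) := by
    intro i
    simp only [dp, icr]
    linear_combination ((v 0 * cr xi et 0 + v 1 * cr xi et 1 + v 2 * cr xi et 2)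
      * cr xi et i) * hI
  have key : v i * (dp xi xi * dp et et - dp xi et ^ 2) = dp v (cr xi et) * cr xi et i
      + (dp v xi * dp et et - dp v et * dp xi et) * xi i
      + (dp v et * dp xi xi - dp v xi * dp xi et) * et i := by
    fin_cases i <;> simp [dp, cr] <;> ring
  rw [hcr i]
  rw [h11, h22, h12] at key
  linear_combination -key

theorem icr_norm (xi et : Fin 3 → Ω) (h11 : dp xi xi = 0) (h22 : dp et et = 0) (h12 : dp xi et = 1) :
    dp (icr xi et) (icr xi et) = 1 ∧ dp (icr xi et) xi = 0 ∧ dp (icr xi et) et = 0 := by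
  have hI : (algebraMap ℂ Ω Complex.I) ^ 2 = -1 := by
    rw [← map_pow, Complex.I_sq, map_neg, map_one]
  refine ⟨?_, ?_, ?_⟩
  · have key : dp (cr xi et) (cr xi et) = dp xi xi * dp et et - dp xi et ^ 2 := by
      simp [dp, cr]; ring
    have h2 : dp (icr xi et) (icr xi et) = (algebraMap ℂ Ω Complex.I) ^ 2 * dp (cr xi et) (cr xi et) := by
      simp only [dp, icr]; ring
    rw [h2, key, h11, h22, h12, hI]; ring
  · simp [dp, icr, cr]; ring
  · simp [dp, icr, cr]; ring

theorem sys_of_frame (D1 D2 : Derivation ℂ Ω Ω) (al be : Ω)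
    (comm : ∀ u, D1 (D2 u) - D2 (D1 u) = be * D1 u - al * D2 u) (Y : Fin 3 → Ω)
    (h11 : dp (dv D1 Y) (dv D1 Y) = 0) (h22 : dp (dv D2 Y) (dv D2 Y) = 0)
    (h12 : dp (dv D1 Y) (dv D2 Y) = 1) (a b : ℂ) (L : Ω → Ω)
    (hLd : ∀ u, L u = D1 (D2 u) + D2 (D1 u) + al * D2 u + be * D1 u)
    (hL : ∀ i, L (L (Y i)) + algebraMap ℂ Ω a * L (Y i) + algebraMap ℂ Ω b * Y i = 0) :
    ∃ (H Q R sig phi : Ω) (nu : Fin 3 → Ω), 2 * phi = dp Y Y ∧ (∀ i, L (Y i) = 2 * H * nu i) ∧
      (∀ i, Y i = D2 phi * D1 (Y i) + D1 phi * D2 (Y i) + sig * nu i) ∧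
      Sys D1 D2 a b al be H Q R phi sig := by
  haveI : CharZero Ω := charZero_of_injective_algebraMap (algebraMap ℂ Ω).injective
  set xi : Fin 3 → Ω := dv D1 Y with hxi
  set et : Fin 3 → Ω := dv D2 Y with het
  set nu : Fin 3 → Ω := icr xi et with hnu
  obtain ⟨hnn, hnx, hne⟩ := icr_norm xi et h11 h22 h12
  rw [← hnu] at hnn hnx hne
  have hexp := fun v i => expand xi et v h11 h22 h12 i
  rw [← hnu] at hexp
  have D1one : D1 1 = 0 := D1.map_one_eq_zero
  have D2one : D2 1 = 0 := D2.map_one_eq_zero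
  -- products of derivatives
  have c1xx : dp (dv D1 xi) xi = 0 := by
    have := D_dp D1 xi xi
    rw [h11, map_zero, dp_comm xi (dv D1 xi)] at this
    linear_combination (-1 / 2 : Ω) * this
  have c2xx : dp (dv D2 xi) xi = 0 := by
    have := D_dp D2 xi xi
    rw [h11, map_zero, dp_comm xi (dv D2 xi)] at this
    linear_combination (-1 / 2 : Ω) * this
  have c1ee : dp (dv D1 et) et = 0 := by
    have := D_dp D1 et et
    rw [h22, map_zero, dp_comm et (dv D1 et)] at this
    linear_combination (-1 / 2 : Ω) * this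
  have c2ee : dp (dv D2 et) et = 0 := by
    have := D_dp D2 et et
    rw [h22, map_zero, dp_comm et (dv D2 et)] at this
    linear_combination (-1 / 2 : Ω) * this
  have c1nn : dp (dv D1 nu) nu = 0 := by
    have := D_dp D1 nu nu
    rw [hnn, D1one, dp_comm nu (dv D1 nu)] at this
    linear_combination (-1 / 2 : Ω) * this
  have c2nn : dp (dv D2 nu) nu = 0 := by
    have := D_dp D2 nu nu
    rw [hnn, D2one, dp_comm nu (dv D2 nu)] at this
    linear_combination (-1 / 2 : Ω) * this
  -- commutators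
  have cY : ∀ w, dp (dv D1 et) w - dp (dv D2 xi) w = be * dp xi w - al * dp et w := by
    intro w
    have e0 := comm (Y 0)
    have e1 := comm (Y 1)
    have e2 := comm (Y 2)
    simp only [dp, dv, hxi, het]
    linear_combination w 0 * e0 + w 1 * e1 + w 2 * e2
  have cxe : dp (dv D1 et) xi = -al := by
    have := cY xi
    rw [c2xx, h11, dp_comm et xi, h12] at this
    linear_combination this
  have c2xe : dp (dv D2 xi) et = -be := by
    have := cY et
    rw [c1ee, h12, h22] at this
    linear_combination -this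
  have c1xe : dp (dv D1 xi) et = al := by
    have := D_dp D1 xi et
    rw [h12, D1one, dp_comm xi (dv D1 et), cxe] at this
    linear_combination -this
  have c2ex : dp (dv D2 et) xi = be := by
    have := D_dp D2 xi et
    rw [h12, D2one, dp_comm xi (dv D2 et), c2xe] at this
    linear_combination -this
  set Q : Ω := dp (dv D1 xi) nu with hQ
  set R : Ω := dp (dv D2 et) nu with hR
  set H : Ω := dp (dv D1 et) nu with hH
  have hH2 : dp (dv D2 xi) nu = H := by
    have := cY nu
    rw [dp_comm xi nu, dp_comm et nu, hnx, hne] at this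
    linear_combination -this
  have n1x : dp (dv D1 nu) xi = -Q := by
    have := D_dp D1 nu xi
    rw [hnx, map_zero, dp_comm nu (dv D1 xi)] at this
    linear_combination -this
  have n1e : dp (dv D1 nu) et = -H := by
    have := D_dp D1 nu et
    rw [hne, map_zero, dp_comm nu (dv D1 et)] at this
    linear_combination -this
  have n2x : dp (dv D2 nu) xi = -H := by
    have := D_dp D2 nu xi
    rw [hnx, map_zero, dp_comm nu (dv D2 xi), hH2] at this
    linear_combination -this
  have n2e : dp (dv D2 nu) et = -R := by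
    have := D_dp D2 nu et
    rw [hne, map_zero, dp_comm nu (dv D2 et)] at this
    linear_combination -this
  -- the frame equations
  have f1x : ∀ i, D1 (xi i) = al * xi i + Q * nu i := by
    intro i
    have := hexp (dv D1 xi) i
    rw [c1xe, c1xx, ← hQ] at this
    simp only [dv] at this
    linear_combination this
  have f2x : ∀ i, D2 (xi i) = -be * xi i + H * nu i := by
    intro i
    have := hexp (dv D2 xi) i
    rw [c2xe, c2xx, hH2] at this
    simp only [dv] at this
    linear_combination this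
  have f1e : ∀ i, D1 (et i) = -al * et i + H * nu i := by
    intro i
    have := hexp (dv D1 et) i
    rw [c1ee, cxe, ← hH] at this
    simp only [dv] at this
    linear_combination this
  have f2e : ∀ i, D2 (et i) = be * et i + R * nu i := by
    intro i
    have := hexp (dv D2 et) i
    rw [c2ee, c2ex, ← hR] at this
    simp only [dv] at this
    linear_combination this
  have f1n : ∀ i, D1 (nu i) = -H * xi i - Q * et i := by
    intro i
    have := hexp (dv D1 nu) i
    rw [n1e, n1x, c1nn] at this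
    simp only [dv] at this
    linear_combination this
  have f2n : ∀ i, D2 (nu i) = -R * xi i - H * et i := by
    intro i
    have := hexp (dv D2 nu) i
    rw [n2e, n2x, c2nn] at this
    simp only [dv] at this
    linear_combination this
  have y1 : ∀ i, D1 (Y i) = xi i := fun i => rfl
  have y2 : ∀ i, D2 (Y i) = et i := fun i => rfl
  -- Codazzi
  have codQ : D2 Q = D1 H - 2 * be * Q := by
    have hc : ∀ i, D1 (D2 (xi i)) - D2 (D1 (xi i)) = be * D1 (xi i) - al * D2 (xi i) :=
      fun i => comm (xi i)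
    have e : ∀ i, -D1 be * xi i - be * D1 (xi i) + (D1 H * nu i + H * D1 (nu i))
        - (D2 al * xi i + al * D2 (xi i) + (D2 Q * nu i + Q * D2 (nu i)))
        = be * D1 (xi i) - al * D2 (xi i) := by
      intro i
      have h := hc i
      have k1 : D1 (D2 (xi i)) = -D1 be * xi i - be * D1 (xi i) + (D1 H * nu i + H * D1 (nu i)) := by
        rw [f2x i, map_add, Derivation.leibniz, Derivation.leibniz, map_neg]
        simp only [smul_eq_mul]; ring
      have k2 : D2 (D1 (xi i)) = D2 al * xi i + al * D2 (xi i) + (D2 Q * nu i + Q * D2 (nu i)) := by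
        rw [f1x i, map_add, Derivation.leibniz, Derivation.leibniz]
        simp only [smul_eq_mul]; ring
      rw [← k1, ← k2]
      exact h
    have g : ∀ i, (-D1 be * xi i - be * (al * xi i + Q * nu i) + (D1 H * nu i + H * (-H * xi i - Q * et i))
        - (D2 al * xi i + al * (-be * xi i + H * nu i) + (D2 Q * nu i + Q * (-R * xi i - H * et i))))
        - (be * (al * xi i + Q * nu i) - al * (-be * xi i + H * nu i)) = 0 := by
      intro i
      have := e i
      rw [f1x i, f2x i, f1n i, f2n i] at this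
      linear_combination this
    have g0 := g 0
    have g1 := g 1
    have g2 := g 2
    have hnn' : nu 0 * nu 0 + nu 1 * nu 1 + nu 2 * nu 2 = 1 := hnn
    have hnx' : nu 0 * xi 0 + nu 1 * xi 1 + nu 2 * xi 2 = 0 := hnx
    have hne' : nu 0 * et 0 + nu 1 * et 1 + nu 2 * et 2 = 0 := hne
    linear_combination (-1 : Ω) * (nu 0 * g0 + nu 1 * g1 + nu 2 * g2)
      + (-(be * Q) + D1 H - al * H - D2 Q - be * Q + al * H) * hnn'
      + (-D1 be - be * al - H * H - D2 al + al * be + Q * R - be * al - al * be) * hnx'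
      + (-(H * Q) + Q * H) * hne'
  have codR : D1 R = D2 H - 2 * al * R := by
    have hc : ∀ i, D1 (D2 (et i)) - D2 (D1 (et i)) = be * D1 (et i) - al * D2 (et i) :=
      fun i => comm (et i)
    have e : ∀ i, D1 be * et i + be * D1 (et i) + (D1 R * nu i + R * D1 (nu i))
        - (-D2 al * et i - al * D2 (et i) + (D2 H * nu i + H * D2 (nu i)))
        = be * D1 (et i) - al * D2 (et i) := by
      intro i
      have h := hc i
      have k1 : D1 (D2 (et i)) = D1 be * et i + be * D1 (et i) + (D1 R * nu i + R * D1 (nu i)) := by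
        rw [f2e i, map_add, Derivation.leibniz, Derivation.leibniz]
        simp only [smul_eq_mul]; ring
      have k2 : D2 (D1 (et i)) = -D2 al * et i - al * D2 (et i) + (D2 H * nu i + H * D2 (nu i)) := by
        rw [f1e i, map_add, Derivation.leibniz, Derivation.leibniz, map_neg]
        simp only [smul_eq_mul]; ring
      rw [← k1, ← k2]
      exact h
    have g : ∀ i, (D1 be * et i + be * (-al * et i + H * nu i) + (D1 R * nu i + R * (-H * xi i - Q * et i))
        - (-D2 al * et i - al * (be * et i + R * nu i) + (D2 H * nu i + H * (-R * xi i - H * et i))))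
        - (be * (-al * et i + H * nu i) - al * (be * et i + R * nu i)) = 0 := by
      intro i
      have := e i
      rw [f1e i, f2e i, f1n i, f2n i] at this
      linear_combination this
    have g0 := g 0
    have g1 := g 1
    have g2 := g 2
    have hnn' : nu 0 * nu 0 + nu 1 * nu 1 + nu 2 * nu 2 = 1 := hnn
    have hnx' : nu 0 * xi 0 + nu 1 * xi 1 + nu 2 * xi 2 = 0 := hnx
    have hne' : nu 0 * et 0 + nu 1 * et 1 + nu 2 * et 2 = 0 := hne
    linear_combination (1 : Ω) * (nu 0 * g0 + nu 1 * g1 + nu 2 * g2)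
      - (be * H + D1 R + al * R - D2 H - be * H + al * R) * hnn'
      - (D1 be - be * al - R * Q + D2 al + al * be + H * H + be * al + al * be) * hne'
      - (-(R * H) + H * R) * hnx'
  -- the Laplacian of Y
  have hLY : ∀ i, L (Y i) = 2 * H * nu i := by
    intro i
    rw [hLd, y1, y2, f1e, f2x]
    ring
  have hLL : ∀ u, L u = 2 * (D1 (D2 u) + al * D2 u) := by
    intro u
    rw [hLd]
    linear_combination -(comm u)
  -- the equation in components
  have heq : ∀ i, 4 * ((D1 (D2 H) + al * D2 H - H * Q * R - H ^ 3) * nu i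
      + (-(H * D2 H) - R * D1 H - H * (D1 R) - 2 * al * H * R) * xi i
      + (-(Q * D2 H) - 2 * H * D1 H) * et i)
      + algebraMap ℂ Ω a * (2 * H * nu i) + algebraMap ℂ Ω b * Y i = 0 := by
    intro i
    have h := hL i
    rw [hLY i] at h
    have h2 : ∀ c u, c = (2 : Ω) → L (c * u) = c * L u := by
      intro c u hc
      have e1 : D1 c = 0 := by rw [hc]; simpa using D1.map_natCast 2
      have e2 : D2 c = 0 := by rw [hc]; simpa using D2.map_natCast 2
      rw [hLL, hLL, Derivation.leibniz, e2]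
      simp only [mul_zero, add_zero, smul_eq_mul]
      rw [Derivation.leibniz, e1]
      simp only [mul_zero, add_zero, smul_eq_mul]
      ring
    have k0 : L (2 * H * nu i) = 2 * L (H * nu i) := by
      rw [mul_assoc, h2 2 _ rfl]
    have k1 : D2 (H * nu i) = D2 H * nu i - H * R * xi i - H * H * et i := by
      rw [Derivation.leibniz, f2n]; simp only [smul_eq_mul]; ring
    have k2 : D1 (D2 (H * nu i)) = D1 (D2 H) * nu i + D2 H * (-H * xi i - Q * et i)
        - (D1 H * R + H * D1 R) * xi i - H * R * (al * xi i + Q * nu i)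
        - (2 * H * D1 H) * et i - H * H * (-al * et i + H * nu i) := by
      rw [k1, map_sub, map_sub, Derivation.leibniz, Derivation.leibniz, Derivation.leibniz,
        Derivation.leibniz, Derivation.leibniz, f1x, f1e, f1n]
      simp only [smul_eq_mul]; ring
    rw [k0, hLL, k2, k1] at h
    linear_combination h
  refine ⟨H, Q, R, dp Y nu, dp Y Y / 2, nu, by ring, hLY, ?_⟩
  have hc2 : D1 (2 : Ω) = 0 ∧ D2 (2 : Ω) = 0 :=
    ⟨by simpa using D1.map_natCast 2, by simpa using D2.map_natCast 2⟩
  have p1 : D1 (dp Y Y / 2) = dp Y xi := by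
    have h : D1 (2 * (dp Y Y / 2)) = 2 * dp Y xi := by
      rw [mul_div_cancel₀ _ (two_ne_zero (α := Ω)), D_dp, dp_comm (dv D1 Y) Y]
      ring
    rw [Derivation.leibniz, hc2.1] at h
    simp only [smul_eq_mul, mul_zero, add_zero] at h
    exact mul_left_cancel₀ two_ne_zero h
  have p2 : D2 (dp Y Y / 2) = dp Y et := by
    have h : D2 (2 * (dp Y Y / 2)) = 2 * dp Y et := by
      rw [mul_div_cancel₀ _ (two_ne_zero (α := Ω)), D_dp, dp_comm (dv D2 Y) Y]
      ring
    rw [Derivation.leibniz, hc2.2] at h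
    simp only [smul_eq_mul, mul_zero, add_zero] at h
    exact mul_left_cancel₀ two_ne_zero h
  have dvY1 : dv D1 Y = xi := rfl
  have dvY2 : dv D2 Y = et := rfl
  have hdn1 : ∀ w, dp w (dv D1 nu) = -H * dp w xi - Q * dp w et := by
    intro w; simp only [dp, dv, f1n]; ring
  have hdn2 : ∀ w, dp w (dv D2 nu) = -R * dp w xi - H * dp w et := by
    intro w; simp only [dp, dv, f2n]; ring
  have hdx1 : ∀ w, dp w (dv D1 xi) = al * dp w xi + Q * dp w nu := by
    intro w; simp only [dp, dv, f1x]; ring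
  have hde1 : ∀ w, dp w (dv D1 et) = -al * dp w et + H * dp w nu := by
    intro w; simp only [dp, dv, f1e]; ring
  have hde2 : ∀ w, dp w (dv D2 et) = be * dp w et + R * dp w nu := by
    intro w; simp only [dp, dv, f2e]; ring
  have hYY : dp Y Y = 2 * dp Y xi * dp Y et + dp Y nu ^ 2 := by
    have e0 := hexp Y 0
    have e1 := hexp Y 1
    have e2 := hexp Y 2
    have : dp Y Y = Y 0 * Y 0 + Y 1 * Y 1 + Y 2 * Y 2 := rfl
    rw [this]
    have h2 : dp Y xi = Y 0 * xi 0 + Y 1 * xi 1 + Y 2 * xi 2 := rfl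
    have h3 : dp Y et = Y 0 * et 0 + Y 1 * et 1 + Y 2 * et 2 := rfl
    have h4 : dp Y nu = Y 0 * nu 0 + Y 1 * nu 1 + Y 2 * nu 2 := rfl
    linear_combination Y 0 * e0 + Y 1 * e1 + Y 2 * e2 - dp Y et * h2 - dp Y xi * h3 - dp Y nu * h4
  refine ⟨fun i => by rw [p1, p2]; exact hexp Y i, ?_⟩
  constructor
  · exact comm
  · exact codQ
  · exact codR
  · rw [p1, p2, D_dp, dvY1, hdn1, dp_comm xi nu, hnx]; ring
  · rw [p1, p2, D_dp, dvY2, hdn2, dp_comm et nu, hne]; ring
  · rw [p1, D_dp, dvY1, hdx1, h11]; ring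
  · rw [p2, D_dp, dvY2, hde2, h22]; ring
  · rw [p2, D_dp, dvY1, hde1, h12]; ring
  · rw [p1, p2]
    linear_combination -hYY
  · have h0 := heq 0
    have h1 := heq 1
    have h2 := heq 2
    have i1 : nu 0 * xi 0 + nu 1 * xi 1 + nu 2 * xi 2 = 0 := hnx
    have i2 : xi 0 * xi 0 + xi 1 * xi 1 + xi 2 * xi 2 = 0 := h11
    have i3 : xi 0 * et 0 + xi 1 * et 1 + xi 2 * et 2 = 1 := h12
    have i4 : dp Y xi = Y 0 * xi 0 + Y 1 * xi 1 + Y 2 * xi 2 := rfl
    rw [p1, i4]
    linear_combination xi 0 * h0 + xi 1 * h1 + xi 2 * h2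
      - (4 * (D1 (D2 H) + al * D2 H - H * Q * R - H ^ 3) + 2 * algebraMap ℂ Ω a * H) * i1
      - 4 * (-(H * D2 H) - R * D1 H - H * (D1 R) - 2 * al * H * R) * i2
      - 4 * (-(Q * D2 H) - 2 * H * D1 H) * i3
  · have h0 := heq 0
    have h1 := heq 1
    have h2 := heq 2
    have i1 : nu 0 * et 0 + nu 1 * et 1 + nu 2 * et 2 = 0 := hne
    have i2 : et 0 * et 0 + et 1 * et 1 + et 2 * et 2 = 0 := h22
    have i3 : xi 0 * et 0 + xi 1 * et 1 + xi 2 * et 2 = 1 := h12
    have i4 : dp Y et = Y 0 * et 0 + Y 1 * et 1 + Y 2 * et 2 := rfl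
    rw [p2, i4]
    linear_combination et 0 * h0 + et 1 * h1 + et 2 * h2
      - (4 * (D1 (D2 H) + al * D2 H - H * Q * R - H ^ 3) + 2 * algebraMap ℂ Ω a * H) * i1
      - 4 * (-(H * D2 H) - R * D1 H - H * (D1 R) - 2 * al * H * R) * i3
      - 4 * (-(Q * D2 H) - 2 * H * D1 H) * i2 + 4 * H * codR
  · have h0 := heq 0
    have h1 := heq 1
    have h2 := heq 2
    have i1 : nu 0 * nu 0 + nu 1 * nu 1 + nu 2 * nu 2 = 1 := hnn
    have i2 : nu 0 * xi 0 + nu 1 * xi 1 + nu 2 * xi 2 = 0 := hnx
    have i3 : nu 0 * et 0 + nu 1 * et 1 + nu 2 * et 2 = 0 := hne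
    have i4 : dp Y nu = Y 0 * nu 0 + Y 1 * nu 1 + Y 2 * nu 2 := rfl
    rw [i4]
    linear_combination nu 0 * h0 + nu 1 * h1 + nu 2 * h2
      - (4 * (D1 (D2 H) + al * D2 H - H * Q * R - H ^ 3) + 2 * algebraMap ℂ Ω a * H) * i1
      - 4 * (-(H * D2 H) - R * D1 H - H * (D1 R) - 2 * al * H * R) * i2
      - 4 * (-(Q * D2 H) - 2 * H * D1 H) * i3

end Pool.Agent.Work.MP_abe657_gt.T2
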