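import Mathlib

/-!
# MP_abe657_gt, part T2, Trans: transfer of algebraic elements, with their derivatives, to an
algebraically closed field (helper28)
-/

set_option autoImplicit false
set_option linter.unusedVariables false

namespace Pool.Agent.Work.MP_abe657_gt.T2

open Polynomial

/-- apply a function to the coefficients -/
noncomputable def coD {F : Type} [Field F] (D0 : F → F) (p : F[X]) : F[X] :=
  ∑ i ∈ Finset.range (p.natDegree + 1), C (D0 (p.coeff i)) * X ^ i

theorem der_aeval {F A : Type} [Field F] [Field A] [Algebra F A] [Algebra ℂ A]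
    (E : Derivation ℂ A A) (D0 : F → F) (h : ∀ f, E (algebraMap F A f) = algebraMap F A (D0 f))
    (p : F[X]) (x : A) :
    E (aeval x p) = aeval x (coD D0 p) + aeval x (derivative p) * E x := by
  have h1 : aeval x p = ∑ i ∈ Finset.range (p.natDegree + 1), algebraMap F A (p.coeff i) * x ^ i := by
    rw [aeval_eq_sum_range]
    refine Finset.sum_congr rfl fun i _ => ?_
    rw [Algebra.smul_def]
  have h2 : aeval x (derivative p)
      = ∑ i ∈ Finset.range (p.natDegree + 1), algebraMap F A (p.coeff i) * (i * x ^ (i - 1)) := by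
    conv_lhs => rw [p.as_sum_range_C_mul_X_pow]
    rw [derivative_sum, map_sum]
    refine Finset.sum_congr rfl fun i _ => ?_
    rw [derivative_C_mul_X_pow]
    simp
    ring
  have h3 : aeval x (coD D0 p)
      = ∑ i ∈ Finset.range (p.natDegree + 1), algebraMap F A (D0 (p.coeff i)) * x ^ i := by
    rw [coD, map_sum]
    refine Finset.sum_congr rfl fun i _ => ?_
    simp
  rw [h1, h2, h3, map_sum, Finset.sum_mul, ← Finset.sum_add_distrib]
  refine Finset.sum_congr rfl fun i _ => ?_
  rw [Derivation.leibniz, Derivation.leibniz_pow, h]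
  simp only [smul_eq_mul, nsmul_eq_mul]
  ring

theorem der_formula {F A : Type} [Field F] [CharZero F] [Field A] [Algebra F A] [Algebra ℂ A]
    (E : Derivation ℂ A A) (D0 : F → F) (h : ∀ f, E (algebraMap F A f) = algebraMap F A (D0 f))
    (p : F[X]) (hp : Irreducible p) (x : A) (hx : aeval x p = 0) :
    E x = -(aeval x (coD D0 p)) / aeval x (derivative p) := by
  have h1 : aeval x (derivative p) ≠ 0 := hp.separable.aeval_derivative_ne_zero hx
  have h2 := der_aeval E D0 h p x
  rw [hx, map_zero] at h2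
  rw [eq_div_iff h1]
  linear_combination -h2

theorem exists_transfer {F Ω K : Type} [Field F] [CharZero F] [Field Ω] [Field K] [Algebra F Ω]
    [Algebra F K] [Algebra ℂ Ω] [Algebra ℂ K] [IsAlgClosed K]
    (D : Derivation ℂ Ω Ω) (E : Derivation ℂ K K) (D0 : F → F)
    (h1 : ∀ f, D (algebraMap F Ω f) = algebraMap F Ω (D0 f))
    (h2 : ∀ f, E (algebraMap F K f) = algebraMap F K (D0 f)) :
    ∃ Φ : algebraicClosure F Ω →ₐ[F] K, ∀ x : algebraicClosure F Ω,
      ∃ h : D x ∈ algebraicClosure F Ω, Φ ⟨D x, h⟩ = E (Φ x) := by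
  obtain ⟨Φ⟩ : Nonempty (algebraicClosure F Ω →ₐ[F] K) := ⟨IsAlgClosed.lift⟩
  refine ⟨Φ, fun x => ?_⟩
  have hint : IsIntegral F (x : Ω) := mem_algebraicClosure_iff'.1 x.2
  have hirr := minpoly.irreducible hint
  set p := minpoly F (x : Ω) with hp
  have hx0 : aeval (x : Ω) p = 0 := minpoly.aeval F (x : Ω)
  have hval : ∀ q : F[X], aeval (x : Ω) q = ((aeval x q : algebraicClosure F Ω) : Ω) := by
    intro q
    exact aeval_algHom_apply (algebraicClosure F Ω).val x q
  have hx1 : aeval x p = 0 := by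
    apply Subtype.ext
    rw [← hval, hx0]
    rfl
  have hΦ : ∀ q : F[X], aeval (Φ x) q = Φ (aeval x q) := fun q => aeval_algHom_apply Φ x q
  have e1 := der_formula D D0 h1 p hirr (x : Ω) hx0
  have e2 := der_formula E D0 h2 p hirr (Φ x) (by rw [hΦ, hx1, map_zero])
  have e3 : D x = ((-(aeval x (coD D0 p)) / aeval x (derivative p) : algebraicClosure F Ω) : Ω) := by
    rw [e1, hval, hval]
    push_cast
    rfl
  have e4 : D x ∈ algebraicClosure F Ω := by rw [e3]; exact Subtype.property _
  refine ⟨e4, ?_⟩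
  have e5 : (⟨D x, e4⟩ : algebraicClosure F Ω) = -(aeval x (coD D0 p)) / aeval x (derivative p) :=
    Subtype.ext e3
  rw [e5, e2, map_div₀, map_neg, hΦ, hΦ]

/-- `aeval t` is injective if `t` has derivative one -/
theorem aeval_ne_zero {A : Type} [Field A] [Algebra ℂ A] (D : Derivation ℂ A A) (t : A)
    (ht : D t = 1) (p : ℂ[X]) (hp : p ≠ 0) : aeval t p ≠ 0 := by
  induction hn : p.natDegree using Nat.strong_induction_on generalizing p with
  | _ n ih =>
    intro h0
    rcases Nat.eq_zero_or_pos n with h | h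
    · rw [h] at hn
      rw [eq_C_of_natDegree_eq_zero hn, aeval_C] at h0
      apply hp
      rw [eq_C_of_natDegree_eq_zero hn, (algebraMap ℂ A).injective (h0.trans (map_zero _).symm),
        C_0]
    · have h1 := Derivation.map_aeval (D := D) p t
      rw [h0, map_zero, ht, smul_eq_mul, mul_one] at h1
      have h2 : (derivative p).natDegree = n - 1 := by
        rw [natDegree_derivative, hn]
      refine ih (n - 1) (by omega) (derivative p) ?_ h2 h1.symm
      intro h3
      have h4 := derivative_eq_zero.1 h3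
      omega

/-- the embedding of the field of rational functions with `X` sent to `t` -/
theorem exists_ratFunc {A : Type} [Field A] [Algebra ℂ A] (D : Derivation ℂ A A) (t : A)
    (ht : D t = 1) :
    ∃ α : FractionRing ℂ[X] →+* A, ∀ p : ℂ[X], α (algebraMap ℂ[X] (FractionRing ℂ[X]) p) = aeval t p := by
  have hinj : Function.Injective ((aeval t : ℂ[X] →ₐ[ℂ] A) : ℂ[X] →+* A) := by
    rw [injective_iff_map_eq_zero]
    intro p hp
    by_contra h
    exact aeval_ne_zero D t ht p h hp
  refine ⟨IsFractionRing.lift hinj, fun p => ?_⟩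
  rw [IsFractionRing.lift_algebraMap]
  rfl

theorem exists_der_ratFunc : ∃ D0 : FractionRing ℂ[X] → FractionRing ℂ[X],
    ∀ (A : Type) [Field A] [Algebra ℂ A] (D : Derivation ℂ A A) (t : A) (ht : D t = 1)
      (α : FractionRing ℂ[X] →+* A)
      (hα : ∀ p : ℂ[X], α (algebraMap ℂ[X] (FractionRing ℂ[X]) p) = aeval t p)
      (f : FractionRing ℂ[X]), D (α f) = α (D0 f) := by
  have h : ∀ f : FractionRing ℂ[X], ∃ g : FractionRing ℂ[X], 
    ∀ (A : Type) [Field A] [Algebra ℂ A] (D : Derivation ℂ A A) (t : A) (ht : D t = 1)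
      (α : FractionRing ℂ[X] →+* A)
      (hα : ∀ p : ℂ[X], α (algebraMap ℂ[X] (FractionRing ℂ[X]) p) = aeval t p), D (α f) = α g := by
    intro f
    obtain ⟨p, q, hq, rfl⟩ := IsFractionRing.div_surjective (A := ℂ[X]) f
    refine ⟨(algebraMap ℂ[X] (FractionRing ℂ[X]) q)⁻¹ ^ 2 *
      (algebraMap ℂ[X] (FractionRing ℂ[X]) q * algebraMap ℂ[X] (FractionRing ℂ[X]) (derivative p)
        - algebraMap ℂ[X] (FractionRing ℂ[X]) p
          * algebraMap ℂ[X] (FractionRing ℂ[X]) (derivative q)), ?_⟩
    intro A _ _ D t ht α hα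
    rw [map_div₀, hα, hα, Derivation.leibniz_div]
    simp only [map_mul, map_sub, map_pow, map_inv₀, hα, smul_eq_mul]
    rw [Derivation.map_aeval, Derivation.map_aeval, ht]
    simp only [smul_eq_mul, mul_one]
  choose D0 hD0 using h
  exact ⟨D0, fun A _ _ D t ht α hα f => hD0 f A D t ht α hα⟩

end Pool.Agent.Work.MP_abe657_gt.T2
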