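import Pool.Agent.Work.MP_abe657_gt.T2.Defs
import Pool.Agent.Work.MP_abe657_gt.Kit2

/-!
# MP_abe657_gt, part T2, Val: the differential system has no solution in Hahn series at infinity
(helper28)
-/

set_option autoImplicit false
set_option linter.unusedVariables false

namespace Pool.Agent.Work.MP_abe657_gt.T2

/-- the derivation `d/dv` of the field `kk` -/
noncomputable abbrev dV : Derivation ℂ kk kk := Pool.Agent.Work.MP_abe657_gt.dv

/-- `x` has degree at most `r` in `v = 1/t`, with coefficient `c` of `v^r` -/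
def DL (x : kk) (r : ℚ) (c : ℂ) : Prop := GeK x (-r) ∧ ckf x (-r) = c

theorem DL.cast {x : kk} {r r' : ℚ} {c c' : ℂ} (h : DL x r c) (hr : r = r') (hc : c = c') :
    DL x r' c' := by subst hr; subst hc; exact h

theorem DL.mul {x y : kk} {r s : ℚ} {c e : ℂ} (hx : DL x r c) (hy : DL y s e) :
    DL (x * y) (r + s) (c * e) := by
  have h : -(r + s) = -r + -s := by ring
  refine ⟨?_, ?_⟩
  · rw [h]; exact hx.1.mul hy.1
  · rw [h, ckf_mul_lead hx.1 hy.1, hx.2, hy.2]

theorem DL.add {x y : kk} {r : ℚ} {c e : ℂ} (hx : DL x r c) (hy : DL y r e) :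
    DL (x + y) r (c + e) :=
  ⟨hx.1.add hy.1, by rw [ckf_add, hx.2, hy.2]⟩

theorem DL.sub {x y : kk} {r : ℚ} {c e : ℂ} (hx : DL x r c) (hy : DL y r e) :
    DL (x - y) r (c - e) :=
  ⟨hx.1.sub hy.1, by rw [ckf_sub, hx.2, hy.2]⟩

theorem DL.low {x : kk} {r s : ℚ} {c : ℂ} (hx : DL x r c) (h : r < s) : DL x s 0 :=
  ⟨hx.1.mono (by linarith), hx.1 _ (by linarith)⟩

theorem DL.add_low {x y : kk} {r s : ℚ} {c e : ℂ} (hx : DL x r c) (hy : DL y s e) (h : s < r) :
    DL (x + y) r c := (hx.add (hy.low h)).cast rfl (add_zero c)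

theorem DL.low_add {x y : kk} {r s : ℚ} {c e : ℂ} (hx : DL x r c) (hy : DL y s e) (h : r < s) :
    DL (x + y) s e := ((hx.low h).add hy).cast rfl (zero_add e)

theorem DL.sub_low {x y : kk} {r s : ℚ} {c e : ℂ} (hx : DL x r c) (hy : DL y s e) (h : s < r) :
    DL (x - y) r c := (hx.sub (hy.low h)).cast rfl (sub_zero c)

theorem DL.low_sub {x y : kk} {r s : ℚ} {c e : ℂ} (hx : DL x r c) (hy : DL y s e) (h : r < s) :
    DL (x - y) s (-e) := ((hx.low h).sub hy).cast rfl (zero_sub e)

theorem DL.const (c : ℂ) : DL (algebraMap ℂ kk c) 0 c := by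
  rw [algebraMap_kk]
  refine ⟨?_, ?_⟩
  · rw [neg_zero]; exact GeK_iotaK c
  · rw [neg_zero, ckf_iotaK]

theorem DL.num (n : ℕ) [n.AtLeastTwo] : DL (OfNat.ofNat n : kk) 0 (OfNat.ofNat n : ℂ) := by
  have h := DL.const (OfNat.ofNat n : ℂ)
  rwa [map_ofNat] at h

theorem DL.pow2 {x : kk} {r : ℚ} {c : ℂ} (hx : DL x r c) : DL (x ^ 2) (2 * r) (c ^ 2) := by
  rw [pow_two]
  exact (hx.mul hx).cast (by ring) (by ring)

theorem DL.half {x : kk} {r : ℚ} {c : ℂ} (hx : DL x r c) : DL (x / 2) r (c / 2) := by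
  have h2 := DL.const (1 / 2 : ℂ)
  have h3 : algebraMap ℂ kk (1 / 2) = 1 / 2 := by
    rw [map_div₀, map_one, map_ofNat]
  rw [h3] at h2
  have h4 := hx.mul h2
  rw [mul_one_div] at h4
  exact h4.cast (by ring) (by ring)

theorem ckf_dV (x : kk) (q : ℚ) : ckf (dV x) (-(q - 1)) = (q : ℂ) * ckf x (-q) := by
  have h1 : tk ^ 2 = tp 2 := by rw [← tp_one, tp_pow]; norm_num
  rw [show dV x = -(tk ^ 2) * dk x from rfl, h1, neg_mul, ckf_neg, ckf_tp_mul, ckf_dk]
  have h2 : -(q - 1) - 2 + 1 = -q := by ring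
  rw [h2]
  push_cast
  ring_nf

theorem DL.dv {x : kk} {r : ℚ} {c : ℂ} (hx : DL x r c) : DL (dV x) (r - 1) (r * c) := by
  refine ⟨?_, ?_⟩
  · intro q hq
    have h := ckf_dV x (1 - q)
    have h1 : -(1 - q - 1) = q := by ring
    rw [h1, hx.1 _ (by linarith), mul_zero] at h
    exact h
  · rw [ckf_dV, hx.2]

theorem DL.uniq {x : kk} {r : ℚ} {c e : ℂ} (hx : DL x r c) (hy : DL x r e) : c = e := by
  rw [← hx.2, ← hy.2]

theorem DL.v : DL (tp (-1)) 1 1 := by
  refine ⟨GeK_tp _, ckf_tp _⟩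

theorem exists_DL {x : kk} (hx : x ≠ 0) : ∃ r c, c ≠ 0 ∧ DL x r c := by
  obtain ⟨a, h1, h2⟩ := exists_ordK hx
  exact ⟨-a, ckf x a, h2, by rw [DL, neg_neg]; exact ⟨h1, rfl⟩⟩

theorem DL.int_pos {x : kk} {r : ℚ} {c : ℂ} (hr : 0 < r) (h : DL (dV x) (r - 1) c) :
    DL x r (c / r) := by
  have hr0 : (r : ℂ) ≠ 0 := by exact_mod_cast hr.ne'
  refine ⟨?_, ?_⟩
  · intro q hq
    have h1 := ckf_dV x (-q)
    rw [neg_neg, h.1 _ (by linarith)] at h1
    rcases mul_eq_zero.1 h1.symm with h2 | h2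
    · exfalso
      have : (-q : ℚ) = 0 := by exact_mod_cast h2
      linarith
    · exact h2
  · have h1 := ckf_dV x r
    rw [h.2] at h1
    rw [h1, mul_div_cancel_left₀ _ hr0]

theorem DL.int_zero {x : kk} {c : ℂ} (h : DL (dV x) (-1) c) : c = 0 := by
  have h1 := ckf_dV x 0
  rw [Rat.cast_zero, zero_mul] at h1
  rw [← h.2, ← h1]
  norm_num

theorem DL.int_neg {x : kk} {r : ℚ} {c : ℂ} (hr : r < 0) (h : DL (dV x) (r - 1) c) :
    ∃ s0, DL (x - algebraMap ℂ kk s0) r (c / r) := by
  have hr0 : (r : ℂ) ≠ 0 := by exact_mod_cast hr.ne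
  refine ⟨ckf x 0, ?_, ?_⟩
  · intro q hq
    rw [ckf_sub, algebraMap_kk]
    by_cases hq0 : q = 0
    · rw [hq0, ckf_iotaK, sub_self]
    rw [ckf_iotaK_of_ne _ hq0, sub_zero]
    have h1 := ckf_dV x (-q)
    rw [neg_neg, h.1 _ (by linarith)] at h1
    rcases mul_eq_zero.1 h1.symm with h2 | h2
    · exfalso
      have : (-q : ℚ) = 0 := by exact_mod_cast h2
      apply hq0
      linarith
    · exact h2
  · rw [ckf_sub, algebraMap_kk, ckf_iotaK_of_ne _ (by linarith : -r ≠ 0), sub_zero]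
    have h1 := ckf_dV x r
    rw [h.2] at h1
    rw [h1, mul_div_cancel_left₀ _ hr0]

/-- the differential system has no solution at infinity -/
theorem kk_false (a : ℂ) (phi s y : kk)
    (h : Ode dV a (tp (-1)) phi s y) (hy : y ≠ 0) : False := by
  obtain ⟨-, hphi, hsig, hrel, hdy⟩ := h
  obtain ⟨r, c, hc, hY⟩ := exists_DL hy
  have hV := DL.v
  have hA := DL.const a
  have h2 : DL (2 : kk) 0 2 := DL.num 2
  have h3 : DL (3 : kk) 0 3 := DL.num 3
  have h4 : DL (4 : kk) 0 4 := DL.num 4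
  have h5 : DL (5 : kk) 0 5 := DL.num 5
  have h6 : DL (6 : kk) 0 6 := DL.num 6
  have h2d : ∀ {w : ℚ} {e : ℂ}, DL (2 * dV s) w e →
      DL (dV s) w (e / 2) := by
    intro w e hw
    have := hw.half
    rwa [mul_div_cancel_left₀ _ (by norm_num : (2 : kk) ≠ 0)] at this
  rw [Kf, Nf] at hdy
  rw [Kf] at hrel
  set v : kk := tp (-1) with hv
  set A : kk := algebraMap ℂ kk a with hAd
  have hdY := hY.dv
  rcases lt_trichotomy r 1 with hr | hr | hr
  · -- r < 1
    have hyv : DL (y - v) 1 (-1) := hY.low_sub hV hr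
    have hds : DL (2 * dV s) (r + 1) c := by
      rw [hsig]
      have := (hY.mul hyv)
      have h0 : DL (0 : kk) (r + 1) 0 := ⟨GeK.zero _, rfl⟩
      have h1 := h0.sub this
      rw [zero_sub] at h1
      exact h1.cast rfl (by ring)
    have hds' := h2d hds
    have hG : DL ((y ^ 2 - 4 * v * y + 5 * v ^ 2) / 2 - A) 2 (5 / 2) := by
      have e1 : DL (y ^ 2 - 4 * v * y + 5 * v ^ 2) 2 5 := by
        have f1 : DL (y ^ 2) (2 * r) (c ^ 2) := hY.pow2
        have f2 : DL (4 * v * y) (1 + r) (4 * c) := ((h4.mul hV).mul hY).cast (by ring) (by ring)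
        have f3 : DL (5 * v ^ 2) 2 5 := (h5.mul hV.pow2).cast (by ring) (by ring)
        exact ((f1.low (by linarith)).sub (f2.low (by linarith))).add f3 |>.cast rfl (by ring)
      exact (e1.half).sub_low hA (by norm_num)
    have hVG : DL (v * ((y ^ 2 - 4 * v * y + 5 * v ^ 2) / 2 - A)) 3 (5 / 2) :=
      (hV.mul hG).cast (by ring) (by ring)
    have hVYG : DL (v * y ^ 2 * ((y ^ 2 - 4 * v * y + 5 * v ^ 2) / 2 - A)) (2 * r + 3)
        (c ^ 2 * (5 / 2)) := ((hV.mul hY.pow2).mul hG).cast (by ring) (by ring)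
    -- the case where the term of order r + 2 of `s` is dominant
    have main : ∀ s1 : ℂ, (r + 2 : ℚ) ≠ 0 → s1 = c / 2 / ((r + 2 : ℚ) : ℂ) → -3 < r → DL s (r + 2) s1 →
        False := by
      intro s1 hr2 hs1 hr3 hS
      have hvs : DL (v * s) (r + 3) s1 := (hV.mul hS).cast (by ring) (by ring)
      have h46 : DL (4 + 6 * v * s) (r + 3) (6 * s1) := by
        have f1 : DL (6 * v * s) (r + 3) (6 * s1) := ((h6.mul hV).mul hS).cast (by ring) (by ring)
        exact h4.low_add f1 (by linarith)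
      have hK : DL ((y - v) * (4 + 6 * v * s)
          - v * y ^ 2 * ((y ^ 2 - 4 * v * y + 5 * v ^ 2) / 2 - A)) (r + 4) (-(6 * s1)) := by
        have f1 : DL ((y - v) * (4 + 6 * v * s)) (r + 4) (-(6 * s1)) :=
          (hyv.mul h46).cast (by ring) (by ring)
        exact f1.sub_low hVYG (by linarith)
      have hN : DL (v * ((y ^ 2 - 4 * v * y + 5 * v ^ 2) / 2 - A) - s) 3 (5 / 2) :=
        hVG.sub_low hS (by linarith)
      have hR : DL (2 + v * s - y * (v * ((y ^ 2 - 4 * v * y + 5 * v ^ 2) / 2 - A) - s)) (r + 3)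
          (s1 - c * (5 / 2)) :=
        (h2.low_add hvs (by linarith)).sub ((hY.mul hN))
      have hL := hdY.mul hK
      have hR' := (h3.mul hY).mul hR
      rw [hdy] at hL
      have h9 := (hL.cast (by ring : r - 1 + (r + 4) = 0 + r + (r + 3)) rfl).uniq hR'
      have hr2' : ((r + 2 : ℚ) : ℂ) ≠ 0 := by exact_mod_cast hr2
      have h10 : s1 * ((r + 2 : ℚ) : ℂ) = c / 2 := by rw [hs1]; field_simp
      have h11 : (3 * c ^ 2) * ((r : ℂ) + 3) = 0 := by
        push_cast at h10
        linear_combination (2 / 3 * ((r : ℂ) + 2)) * h9 + (4 * r * c + 2 * c) * h10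
      rcases mul_eq_zero.1 h11 with h12 | h12
      · exact hc (by simpa using h12)
      · have : r + 3 = 0 := by exact_mod_cast h12
        linarith
    rcases lt_trichotomy r (-2) with hr2 | hr2 | hr2
    · -- r < -2
      obtain ⟨s0, hS⟩ := DL.int_neg (by linarith : r + 2 < 0)
        (hds'.cast (by ring : r + 1 = r + 2 - 1) rfl)
      by_cases hs0 : s0 = 0
      · rw [hs0, map_zero, sub_zero] at hS
        rcases lt_trichotomy r (-3) with hr3 | hr3 | hr3
        · -- r < -3
          have hvs : DL (v * s) (r + 3) (c / 2 / ((r + 2 : ℚ) : ℂ)) :=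
            (hV.mul hS).cast (by ring) (by ring)
          have h46 : DL (4 + 6 * v * s) 0 4 := by
            have f1 := ((h6.mul hV).mul hS)
            exact h4.add_low f1 (by linarith)
          have hK : DL ((y - v) * (4 + 6 * v * s)
              - v * y ^ 2 * ((y ^ 2 - 4 * v * y + 5 * v ^ 2) / 2 - A)) 1 (-4) := by
            have f1 : DL ((y - v) * (4 + 6 * v * s)) 1 (-4) :=
              (hyv.mul h46).cast (by ring) (by ring)
            exact f1.sub_low hVYG (by linarith)
          have hN : DL (v * ((y ^ 2 - 4 * v * y + 5 * v ^ 2) / 2 - A) - s) 3 (5 / 2) :=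
            hVG.sub_low hS (by linarith)
          have hR : DL (2 + v * s - y * (v * ((y ^ 2 - 4 * v * y + 5 * v ^ 2) / 2 - A) - s)) 0 2 :=
            (h2.add_low hvs (by linarith)).sub_low (hY.mul hN) (by linarith)
          have hL := hdY.mul hK
          have hR' := (h3.mul hY).mul hR
          rw [hdy] at hL
          have h9 := (hL.cast (by ring : r - 1 + 1 = 0 + r + 0) rfl).uniq hR'
          have h11 : c * (4 * (r : ℂ) + 6) = 0 := by linear_combination -h9
          rcases mul_eq_zero.1 h11 with h12 | h12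
          · exact hc h12
          · have : 4 * r + 6 = 0 := by exact_mod_cast h12
            linarith
        · -- r = -3
          subst hr3
          have hS' : DL s (-1) (-c / 2) := hS.cast (by norm_num) (by push_cast; ring)
          have hvs : DL (v * s) 0 (-c / 2) := (hV.mul hS').cast (by ring) (by ring)
          have h46 : DL (4 + 6 * v * s) 0 (4 - 3 * c) := by
            have f1 : DL (6 * v * s) 0 (-3 * c) := ((h6.mul hV).mul hS').cast (by ring) (by ring)
            exact (h4.add f1).cast rfl (by ring)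
          have hK : DL ((y - v) * (4 + 6 * v * s)
              - v * y ^ 2 * ((y ^ 2 - 4 * v * y + 5 * v ^ 2) / 2 - A)) 1 (-(4 - 3 * c)) := by
            have f1 : DL ((y - v) * (4 + 6 * v * s)) 1 (-(4 - 3 * c)) :=
              (hyv.mul h46).cast (by ring) (by ring)
            exact f1.sub_low hVYG (by norm_num)
          have hN : DL (v * ((y ^ 2 - 4 * v * y + 5 * v ^ 2) / 2 - A) - s) 3 (5 / 2) :=
            hVG.sub_low hS' (by norm_num)
          have hR : DL (2 + v * s - y * (v * ((y ^ 2 - 4 * v * y + 5 * v ^ 2) / 2 - A) - s)) 0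
              (2 + -c / 2 - c * (5 / 2)) :=
            (h2.add hvs).sub ((hY.mul hN).cast (by norm_num) rfl)
          have hL := hdY.mul hK
          have hR' := (h3.mul hY).mul hR
          rw [hdy] at hL
          have h9 := (hL.cast (by norm_num : (-3 : ℚ) - 1 + 1 = 0 + -3 + 0) rfl).uniq hR'
          push_cast at h9
          have h11 : c = 0 := by linear_combination (1 / 6 : ℂ) * h9
          exact hc h11
        · exact main _ (by linarith) rfl hr3 hS
      · -- the constant term of `s` is dominant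
        have hS' : DL s 0 s0 := by
          have := hS.low_add (DL.const s0) (by linarith)
          rwa [sub_add_cancel] at this
        have hvs : DL (v * s) 1 s0 := (hV.mul hS').cast (by ring) (by ring)
        have h46 : DL (4 + 6 * v * s) 1 (6 * s0) := by
          have f1 : DL (6 * v * s) 1 (6 * s0) := ((h6.mul hV).mul hS').cast (by ring) (by ring)
          exact h4.low_add f1 (by norm_num)
        have hK : DL ((y - v) * (4 + 6 * v * s)
            - v * y ^ 2 * ((y ^ 2 - 4 * v * y + 5 * v ^ 2) / 2 - A)) 2 (-(6 * s0)) := by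
          have f1 : DL ((y - v) * (4 + 6 * v * s)) 2 (-(6 * s0)) :=
            (hyv.mul h46).cast (by ring) (by ring)
          exact f1.sub_low hVYG (by linarith)
        have hN : DL (v * ((y ^ 2 - 4 * v * y + 5 * v ^ 2) / 2 - A) - s) 3 (5 / 2) :=
          hVG.sub_low hS' (by norm_num)
        have hR : DL (2 + v * s - y * (v * ((y ^ 2 - 4 * v * y + 5 * v ^ 2) / 2 - A) - s)) 1 s0 :=
          (h2.low_add hvs (by norm_num)).sub_low (hY.mul hN) (by linarith)
        have hL := hdY.mul hK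
        have hR' := (h3.mul hY).mul hR
        rw [hdy] at hL
        have h9 := (hL.cast (by ring : r - 1 + 2 = 0 + r + 1) rfl).uniq hR'
        have h11 : (c * s0) * (6 * (r : ℂ) + 3) = 0 := by linear_combination -h9
        rcases mul_eq_zero.1 h11 with h12 | h12
        · rcases mul_eq_zero.1 h12 with h13 | h13
          · exact hc h13
          · exact hs0 h13
        · have : 6 * r + 3 = 0 := by exact_mod_cast h12
          linarith
    · -- r = -2
      subst hr2
      have h7 : c / 2 = 0 := DL.int_zero (hds'.cast (by norm_num) rfl)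
      exact hc (by linear_combination 2 * h7)
    · -- -2 < r < 1
      have hS := DL.int_pos (by linarith : 0 < r + 2) (hds'.cast (by ring : r + 1 = r + 2 - 1) rfl)
      exact main _ (by linarith) rfl (by linarith) hS
  · -- r = 1
    subst hr
    have hyv : DL (y - v) 1 (c - 1) := hY.sub hV
    have hds : DL (2 * dV s) 2 (-(c * (c - 1))) := by
      rw [hsig]
      have := (hY.mul hyv)
      have h0 : DL (0 : kk) 2 0 := ⟨GeK.zero _, rfl⟩
      have h1 := h0.sub (this.cast (by norm_num) rfl)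
      rw [zero_sub] at h1
      exact h1.cast rfl (by ring)
    have hS0 := DL.int_pos (by norm_num : (0 : ℚ) < 3) ((h2d hds).cast (by norm_num : (2 : ℚ) = 3 - 1) rfl)
    obtain ⟨s1, hs1, hS⟩ : ∃ s1 : ℂ, 6 * s1 = -(c * (c - 1)) ∧ DL s 3 s1 :=
      ⟨_, by push_cast; ring, hS0⟩
    have hvs : DL (v * s) 4 s1 := (hV.mul hS).cast (by norm_num) (by ring)
    have h46 : DL (4 + 6 * v * s) 4 (6 * s1) := by
      have f1 : DL (6 * v * s) 4 (6 * s1) := ((h6.mul hV).mul hS).cast (by norm_num) (by ring)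
      exact h4.low_add f1 (by norm_num)
    have hG : DL ((y ^ 2 - 4 * v * y + 5 * v ^ 2) / 2 - A) 2 ((c ^ 2 - 4 * c + 5) / 2) := by
      have e1 : DL (y ^ 2 - 4 * v * y + 5 * v ^ 2) 2 (c ^ 2 - 4 * c + 5) := by
        have f1 : DL (y ^ 2) 2 (c ^ 2) := hY.pow2.cast (by norm_num) rfl
        have f2 : DL (4 * v * y) 2 (4 * c) := ((h4.mul hV).mul hY).cast (by norm_num) (by ring)
        have f3 : DL (5 * v ^ 2) 2 5 := (h5.mul hV.pow2).cast (by ring) (by ring)
        exact ((f1).sub f2).add f3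
      exact (e1.half).sub_low hA (by norm_num)
    have hK : DL ((y - v) * (4 + 6 * v * s)
        - v * y ^ 2 * ((y ^ 2 - 4 * v * y + 5 * v ^ 2) / 2 - A)) 5
        ((c - 1) * (6 * s1) - c ^ 2 * ((c ^ 2 - 4 * c + 5) / 2)) := by
      have f1 : DL ((y - v) * (4 + 6 * v * s)) 5 ((c - 1) * (6 * s1)) :=
        (hyv.mul h46).cast (by norm_num) rfl
      have f2 : DL (v * y ^ 2 * ((y ^ 2 - 4 * v * y + 5 * v ^ 2) / 2 - A)) 5
          (c ^ 2 * ((c ^ 2 - 4 * c + 5) / 2)) :=
        ((hV.mul hY.pow2).mul hG).cast (by norm_num) (by ring)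
      exact f1.sub f2
    have hN : DL (v * ((y ^ 2 - 4 * v * y + 5 * v ^ 2) / 2 - A) - s) 3
        ((c ^ 2 - 4 * c + 5) / 2 - s1) :=
      ((hV.mul hG).cast (by norm_num) (by ring)).sub hS
    have hR : DL (2 + v * s - y * (v * ((y ^ 2 - 4 * v * y + 5 * v ^ 2) / 2 - A) - s)) 4
        (s1 - c * ((c ^ 2 - 4 * c + 5) / 2 - s1)) :=
      (h2.low_add hvs (by norm_num)).sub ((hY.mul hN).cast (by norm_num) rfl)
    have hL := hdY.mul hK
    have hR' := (h3.mul hY).mul hR
    rw [hdy] at hL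
    have h9 := (hL.cast (by norm_num : (1 : ℚ) - 1 + 5 = 0 + 1 + 4) rfl).uniq hR'
    -- the relation for phi
    have hP : DL phi 2 (c / (2 : ℚ)) := DL.int_pos (by norm_num) (by
      rw [hphi]; exact hY.cast (by norm_num) rfl)
    have hP1 : DL (3 * (2 * phi - s ^ 2)) 6 (-3 * s1 ^ 2) := by
      have f1 : DL (s ^ 2) 6 (s1 ^ 2) := hS.pow2.cast (by norm_num) rfl
      have f2 := (h2.mul hP).low_sub f1 (by norm_num)
      exact (h3.mul f2).cast (by norm_num) (by ring)
    rw [hrel] at hP1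
    have h10 := ((hY.mul hK).cast (by norm_num : (1 : ℚ) + 5 = 6) rfl).uniq hP1
    push_cast at h9
    have g1 : c ^ 3 - 6 * c ^ 2 + 13 * c - 12 = 0 := by
      have : c ^ 2 * (c ^ 3 - 6 * c ^ 2 + 13 * c - 12) = 0 := by
        linear_combination (-2 : ℂ) * h9 + (2 * c * (c - 1) - c - c ^ 2) * hs1
      rcases mul_eq_zero.1 this with h12 | h12
      · exact absurd (by simpa using h12) hc
      · exact h12
    have g2 : 6 * c ^ 3 - 13 * c ^ 2 + 8 * c + 11 = 0 := by
      have : c ^ 2 * (6 * c ^ 3 - 13 * c ^ 2 + 8 * c + 11) = 0 := by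
        linear_combination (-12 : ℂ) * h10 + (12 * c * (c - 1)
          + (6 * s1 - c * (c - 1))) * hs1
      rcases mul_eq_zero.1 this with h12 | h12
      · exact absurd (by simpa using h12) hc
      · exact h12
    have g3 : (1 : ℂ) = 0 := by
      linear_combination (-27 / 280 - 19 / 112 * c - 39 / 280 * c ^ 2) * g1
        + (-1 / 70 - 17 / 280 * c + 13 / 560 * c ^ 2) * g2
    exact one_ne_zero g3
  · -- 1 < r
    have hyv : DL (y - v) r c := hY.sub_low hV hr
    have hds : DL (2 * dV s) (2 * r) (-c ^ 2) := by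
      rw [hsig]
      have := (hY.mul hyv)
      have h0 : DL (0 : kk) (2 * r) 0 := ⟨GeK.zero _, rfl⟩
      have h1 := h0.sub (this.cast (by ring) rfl)
      rw [zero_sub] at h1
      exact h1.cast rfl (by ring)
    have hS := DL.int_pos (by linarith : 0 < 2 * r + 1)
      ((h2d hds).cast (by ring : 2 * r = 2 * r + 1 - 1) rfl)
    have hvs := hV.mul hS
    have h46 := h4.low_add ((h6.mul hV).mul hS) (by linarith)
    have hG : DL ((y ^ 2 - 4 * v * y + 5 * v ^ 2) / 2 - A) (2 * r) (c ^ 2 / 2) := by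
      have e1 : DL (y ^ 2 - 4 * v * y + 5 * v ^ 2) (2 * r) (c ^ 2) := by
        have f1 : DL (y ^ 2) (2 * r) (c ^ 2) := hY.pow2
        have f2 := (h4.mul hV).mul hY
        have f3 := h5.mul hV.pow2
        exact (f1.sub_low f2 (by linarith)).add_low f3 (by linarith)
      exact (e1.half).sub_low hA (by linarith)
    have hK : DL ((y - v) * (4 + 6 * v * s)
        - v * y ^ 2 * ((y ^ 2 - 4 * v * y + 5 * v ^ 2) / 2 - A)) (4 * r + 1)
        (-(c ^ 2 * (c ^ 2 / 2))) := by
      have f1 := hyv.mul h46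
      have f2 : DL (v * y ^ 2 * ((y ^ 2 - 4 * v * y + 5 * v ^ 2) / 2 - A)) (4 * r + 1)
          (c ^ 2 * (c ^ 2 / 2)) :=
        ((hV.mul hY.pow2).mul hG).cast (by ring) (by ring)
      exact f1.low_sub f2 (by linarith)
    have hN := ((hV.mul hG).cast (by ring : 1 + 2 * r = 2 * r + 1) rfl).sub hS
    have hR := ((h2.low_add hvs (by linarith)).low_sub (hY.mul hN) (by linarith))
    have hL := hdY.mul hK
    have hR' := ((h3.mul hY).mul hR).low (by linarith : 0 + r + (r + (2 * r + 1)) < r - 1 + (4 * r + 1))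
    rw [hdy] at hL
    have h9 := hL.uniq hR'
    have h11 : (c ^ 5) * (r : ℂ) = 0 := by linear_combination (-2 : ℂ) * h9
    rcases mul_eq_zero.1 h11 with h12 | h12
    · exact hc (by simpa using h12)
    · have : r = 0 := by exact_mod_cast h12
      linarith

end Pool.Agent.Work.MP_abe657_gt.T2
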