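import Pool.Agent.Work.MP_abe657_gt.T2.Elim
import Pool.Agent.Work.MP_abe657_gt.T2.Trans
import Pool.Agent.Work.MP_abe657_gt.T2.Val
import Pool.Agent.Work.MP_abe657_gt.HahnClosed

/-!
# MP_abe657_gt, part T2, OdeFalse: the differential system of the rotational case has no solution
(helper28)
-/

set_option autoImplicit false
set_option linter.unusedSimpArgs false
set_option linter.unusedVariables false

namespace Pool.Agent.Work.MP_abe657_gt.T2

open Polynomial

theorem rho_diag {A : Type} [CommRing A] (a t : A) : rho a t t =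
      1216512 * t ^ 33 + 516096 * a * t ^ 31 + 21012480 * a ^ 2 * t ^ 29 - 12607488 * t ^ 29 -
      98758656 * a ^ 3 * t ^ 27 - 54411264 * a * t ^ 27 + 146571264 * a ^ 4 * t ^ 25 + 367054848
      * a ^ 2 * t ^ 25 + 80400384 * t ^ 25 - 90796032 * a ^ 5 * t ^ 23 - 628936704 * a ^ 3 * t ^
      23 - 470900736 * a * t ^ 23 + 20238336 * a ^ 6 * t ^ 21 + 437391360 * a ^ 4 * t ^ 21 +
      899002368 * a ^ 2 * t ^ 21 + 121651200 * t ^ 21 - 108490752 * a ^ 5 * t ^ 19 - 703586304 *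
      a ^ 3 * t ^ 19 - 382648320 * a * t ^ 19 + 195084288 * a ^ 4 * t ^ 17 + 387072000 * a ^ 2 *
      t ^ 17 + 39813120 * t ^ 17 - 126074880 * a ^ 3 * t ^ 15 - 66355200 * a * t ^ 15 + 26542080
      * a ^ 2 * t ^ 13 := by
  simp only [rho, bb2, bb1, bb0, ee1, ee0]
  ring

theorem rho_diag_ne (a : ℂ) : rho (C a) (X : ℂ[X]) X ≠ 0 := by
  intro h0
  rw [rho_diag] at h0
  have h1 : C ((1216512 : ℂ)) * X ^ 33
      + C ((516096 : ℂ) * a) * X ^ 31
      + C ((21012480 : ℂ) * a ^ 2) * X ^ 29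
      + C ((-12607488 : ℂ)) * X ^ 29
      + C ((-98758656 : ℂ) * a ^ 3) * X ^ 27
      + C ((-54411264 : ℂ) * a) * X ^ 27
      + C ((146571264 : ℂ) * a ^ 4) * X ^ 25
      + C ((367054848 : ℂ) * a ^ 2) * X ^ 25
      + C ((80400384 : ℂ)) * X ^ 25
      + C ((-90796032 : ℂ) * a ^ 5) * X ^ 23
      + C ((-628936704 : ℂ) * a ^ 3) * X ^ 23
      + C ((-470900736 : ℂ) * a) * X ^ 23
      + C ((20238336 : ℂ) * a ^ 6) * X ^ 21
      + C ((437391360 : ℂ) * a ^ 4) * X ^ 21
      + C ((899002368 : ℂ) * a ^ 2) * X ^ 21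
      + C ((121651200 : ℂ)) * X ^ 21
      + C ((-108490752 : ℂ) * a ^ 5) * X ^ 19
      + C ((-703586304 : ℂ) * a ^ 3) * X ^ 19
      + C ((-382648320 : ℂ) * a) * X ^ 19
      + C ((195084288 : ℂ) * a ^ 4) * X ^ 17
      + C ((387072000 : ℂ) * a ^ 2) * X ^ 17
      + C ((39813120 : ℂ)) * X ^ 17
      + C ((-126074880 : ℂ) * a ^ 3) * X ^ 15
      + C ((-66355200 : ℂ) * a) * X ^ 15
      + C ((26542080 : ℂ) * a ^ 2) * X ^ 13 = (0 : ℂ[X]) := by
    rw [← h0]
    simp only [C_mul, C_pow, C_neg, C_ofNat]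
    ring
  have h2 := congrArg (fun p => coeff p 33) h1
  simp only [coeff_add, coeff_C_mul_X_pow, coeff_zero] at h2
  norm_num at h2

theorem map_bb2 {A B : Type} [CommRing A] [CommRing B] (f : A →+* B) (a t y : A) :
    f (bb2 a t y) = bb2 (f a) (f t) (f y) := by
  simp only [bb2, map_add, map_sub, map_mul, map_pow, map_neg, map_ofNat]

theorem map_bb1 {A B : Type} [CommRing A] [CommRing B] (f : A →+* B) (a t y : A) :
    f (bb1 a t y) = bb1 (f a) (f t) (f y) := by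
  simp only [bb1, map_add, map_sub, map_mul, map_pow, map_neg, map_ofNat]

theorem map_bb0 {A B : Type} [CommRing A] [CommRing B] (f : A →+* B) (a t y : A) :
    f (bb0 a t y) = bb0 (f a) (f t) (f y) := by
  simp only [bb0, map_add, map_sub, map_mul, map_pow, map_neg, map_ofNat]

theorem map_ee1 {A B : Type} [CommRing A] [CommRing B] (f : A →+* B) (a t y : A) :
    f (ee1 a t y) = ee1 (f a) (f t) (f y) := by
  simp only [ee1, map_add, map_sub, map_mul, map_pow, map_neg, map_ofNat]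

theorem map_ee0 {A B : Type} [CommRing A] [CommRing B] (f : A →+* B) (a t y : A) :
    f (ee0 a t y) = ee0 (f a) (f t) (f y) := by
  simp only [ee0, map_add, map_sub, map_mul, map_pow, map_neg, map_ofNat]

theorem map_rho {A B : Type} [CommRing A] [CommRing B] (f : A →+* B) (a t y : A) :
    f (rho a t y) = rho (f a) (f t) (f y) := by
  simp only [rho, map_add, map_sub, map_mul, map_pow, map_bb2, map_bb1, map_bb0, map_ee1, map_ee0]

variable {Ω : Type} [Field Ω] [Algebra ℂ Ω]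

theorem rho_zero {D : Derivation ℂ Ω Ω} {a : ℂ} {t phi sig y : Ω} (h : Ode D a t phi sig y)
    (hy : y ≠ 0) (hne : 2 * phi - sig ^ 2 ≠ 0) : rho (algebraMap ℂ Ω a) t y = 0 := by
  have ht : t ≠ 0 := by
    rintro rfl
    have := h.dt
    rw [map_zero] at this
    exact zero_ne_one this
  have hb := bet_zero h hy hne
  rcases cub_zero h hy hne with h1 | h1
  · rw [bet] at hb
    rw [rho]
    linear_combination (ee1 (algebraMap ℂ Ω a) t y) ^ 2 * hb
      + (bb2 (algebraMap ℂ Ω a) t y * ee0 (algebraMap ℂ Ω a) t y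
        - bb2 (algebraMap ℂ Ω a) t y * ee1 (algebraMap ℂ Ω a) t y * sig
        - bb1 (algebraMap ℂ Ω a) t y * ee1 (algebraMap ℂ Ω a) t y) * h1
  · exact absurd h1 (mul_ne_zero ht hy)

/-- transport of the polynomial equations along a homomorphism -/
theorem eqs_transfer {M K : Type} [Field M] [Field K] (val : M →+* Ω) (Φ : M →+* K)
    {A T Y S P DY DS DP : M} (h1 : val DP = val Y) (h2 : 2 * val DS = -(val Y * (val Y - val T)))
    (h3 : 3 * (2 * val P - val S ^ 2) = val Y * ((val Y - val T) * (4 + 6 * val T * val S)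
      - val T * val Y ^ 2 * ((val Y ^ 2 - 4 * val T * val Y + 5 * val T ^ 2) / 2 - val A)))
    (h4 : val DY * ((val Y - val T) * (4 + 6 * val T * val S)
      - val T * val Y ^ 2 * ((val Y ^ 2 - 4 * val T * val Y + 5 * val T ^ 2) / 2 - val A))
      = 3 * val Y * (2 + val T * val S - val Y * (val T * ((val Y ^ 2 - 4 * val T * val Y
        + 5 * val T ^ 2) / 2 - val A) - val S))) :
    Φ DP = Φ Y ∧ 2 * Φ DS = -(Φ Y * (Φ Y - Φ T)) ∧
    3 * (2 * Φ P - Φ S ^ 2) = Φ Y * ((Φ Y - Φ T) * (4 + 6 * Φ T * Φ S)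
      - Φ T * Φ Y ^ 2 * ((Φ Y ^ 2 - 4 * Φ T * Φ Y + 5 * Φ T ^ 2) / 2 - Φ A)) ∧
    Φ DY * ((Φ Y - Φ T) * (4 + 6 * Φ T * Φ S)
      - Φ T * Φ Y ^ 2 * ((Φ Y ^ 2 - 4 * Φ T * Φ Y + 5 * Φ T ^ 2) / 2 - Φ A))
      = 3 * Φ Y * (2 + Φ T * Φ S - Φ Y * (Φ T * ((Φ Y ^ 2 - 4 * Φ T * Φ Y
        + 5 * Φ T ^ 2) / 2 - Φ A) - Φ S)) := by
  refine ⟨?_, ?_, ?_, ?_⟩
  · exact congrArg Φ (val.injective h1)
  · have e1 : (2 : M) * DS = -(Y * (Y - T)) := val.injective (by
      simp only [map_mul, map_neg, map_sub, map_ofNat]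
      exact h2)
    have e2 := congrArg Φ e1
    simp only [map_mul, map_neg, map_sub, map_ofNat] at e2
    exact e2
  · have e1 : (3 : M) * (2 * P - S ^ 2) = Y * ((Y - T) * (4 + 6 * T * S) - T * Y ^ 2 *
        ((Y ^ 2 - 4 * T * Y + 5 * T ^ 2) / 2 - A)) := val.injective (by
      simp only [map_mul, map_neg, map_sub, map_ofNat, map_add, map_pow, map_div₀]
      exact h3)
    have e2 := congrArg Φ e1
    simp only [map_mul, map_neg, map_sub, map_ofNat, map_add, map_pow, map_div₀] at e2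
    exact e2
  · have e1 : DY * ((Y - T) * (4 + 6 * T * S) - T * Y ^ 2 *
        ((Y ^ 2 - 4 * T * Y + 5 * T ^ 2) / 2 - A)) = 3 * Y * (2 + T * S - Y * (T *
        ((Y ^ 2 - 4 * T * Y + 5 * T ^ 2) / 2 - A) - S)) := val.injective (by
      simp only [map_mul, map_neg, map_sub, map_ofNat, map_add, map_pow, map_div₀]
      exact h4)
    have e2 := congrArg Φ e1
    simp only [map_mul, map_neg, map_sub, map_ofNat, map_add, map_pow, map_div₀] at e2
    exact e2

/-- `sig` lies in every subfield containing the coefficients which is closed under square roots -/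
theorem sig_mem {D : Derivation ℂ Ω Ω} {a : ℂ} {t phi sig y : Ω} (h : Ode D a t phi sig y)
    (hy : y ≠ 0) (hne : 2 * phi - sig ^ 2 ≠ 0) (M : Subfield Ω)
    (hsq : ∀ x : Ω, x ^ 2 ∈ M → x ∈ M) (mT : t ∈ M) (mA : algebraMap ℂ Ω a ∈ M) (mY : y ∈ M) :
    sig ∈ M ∧ phi ∈ M := by
  haveI : CharZero Ω := charZero_of_injective_algebraMap (algebraMap ℂ Ω).injective
  have hbet := bet_zero h hy hne
  have ht0 : t ≠ 0 := by
    rintro rfl
    have := h.dt
    rw [map_zero] at this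
    exact zero_ne_one this
  set a' : Ω := algebraMap ℂ Ω a with ha'
  have m2 : (2 : Ω) ∈ M := ofNat_mem M 2
  have m3 : (3 : Ω) ∈ M := ofNat_mem M 3
  have m4 : (4 : Ω) ∈ M := ofNat_mem M 4
  have m5 : (5 : Ω) ∈ M := ofNat_mem M 5
  have m6 : (6 : Ω) ∈ M := ofNat_mem M 6
  have mG : (y ^ 2 - 4 * t * y + 5 * t ^ 2) / 2 - a' ∈ M :=
    M.sub_mem (M.div_mem (M.add_mem (M.sub_mem (M.pow_mem mY 2) (M.mul_mem (M.mul_mem m4 mT) mY))
      (M.mul_mem m5 (M.pow_mem mT 2))) m2) mA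
  have mS : sig ∈ M := by
    by_cases hb2 : bb2 a' t y = 0
    · have h1 : 2 * t ^ 2 - 3 * t * y + 3 * y ^ 2 = 0 := by
        rw [bb2] at hb2
        have h2 : 72 * t * (2 * t ^ 2 - 3 * t * y + 3 * y ^ 2) = 0 := by linear_combination hb2
        rcases mul_eq_zero.1 h2 with h3 | h3
        · exact absurd h3 (mul_ne_zero (by norm_num) ht0)
        · exact h3
      have h2 : D y * (6 * y - 3 * t) = 3 * y - 4 * t := by
        have hc : ∀ (k : ℕ) [k.AtLeastTwo], D (OfNat.ofNat k : Ω) = 0 := fun k _ => D.map_natCast k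
        have := congrArg D h1
        simp only [Derivation.leibniz, map_sub, map_add, Derivation.leibniz_pow, hc,
          h.dt, smul_eq_mul, nsmul_eq_mul, mul_zero, mul_one, add_zero, zero_add, map_zero] at this
        push_cast at this
        linear_combination this
      have h3 : 6 * y - 3 * t ≠ 0 := by
        intro h4
        have h5 : y ^ 2 * 5 = 0 := by linear_combination h1 - (-2 / 3 * t - 1 / 3 * y ) * h4
        rcases mul_eq_zero.1 h5 with h6 | h6
        · exact hy (by simpa using h6)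
        · norm_num at h6
      have h4 : t * D y = y := by
        have h5 : (6 * y - 3 * t) * (t * D y - y) = 0 := by
          linear_combination t * h2 - 2 * h1
        rcases mul_eq_zero.1 h5 with h6 | h6
        · exact absurd h6 h3
        · linear_combination h6
      have h5 : y - 3 * t ≠ 0 := by
        intro h6
        have h7 : t ^ 2 * 20 = 0 := by linear_combination h1 - (6 * t + 3 * y) * h6
        rcases mul_eq_zero.1 h7 with h8 | h8
        · exact ht0 (by simpa using h8)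
        · norm_num at h8
      have h6 := h.dy
      rw [Kf, Nf] at h6
      have h7 : y * (3 * t * (y - 3 * t) * sig) = y * (-4 * (y - t)
          + t * y ^ 2 * ((y ^ 2 - 4 * t * y + 5 * t ^ 2) / 2 - a') + 6 * t
          - 3 * t ^ 2 * y * ((y ^ 2 - 4 * t * y + 5 * t ^ 2) / 2 - a')) := by
        linear_combination t * h6 - ((y - t) * (4 + 6 * t * sig)
          - t * y ^ 2 * ((y ^ 2 - 4 * t * y + 5 * t ^ 2) / 2 - a')) * h4
      have h8 := mul_left_cancel₀ hy h7
      have h9 : sig = (-4 * (y - t)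
          + t * y ^ 2 * ((y ^ 2 - 4 * t * y + 5 * t ^ 2) / 2 - a') + 6 * t
          - 3 * t ^ 2 * y * ((y ^ 2 - 4 * t * y + 5 * t ^ 2) / 2 - a')) / (3 * t * (y - 3 * t)) := by
        rw [eq_div_iff (mul_ne_zero (mul_ne_zero (by norm_num) ht0) h5)]
        linear_combination h8
      rw [h9]
      exact M.div_mem (M.sub_mem (M.add_mem (M.add_mem (M.mul_mem (M.neg_mem m4) (M.sub_mem mY mT))
        (M.mul_mem (M.mul_mem mT (M.pow_mem mY 2)) mG)) (M.mul_mem m6 mT))
        (M.mul_mem (M.mul_mem (M.mul_mem m3 (M.pow_mem mT 2)) mY) mG))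
        (M.mul_mem (M.mul_mem m3 mT) (M.sub_mem mY (M.mul_mem m3 mT)))
    · have mb2 : bb2 a' t y ∈ M := by
        have e := map_bb2 M.subtype ⟨a', mA⟩ ⟨t, mT⟩ ⟨y, mY⟩
        change _ = bb2 a' t y at e
        rw [← e]; exact Subtype.property _
      have mb1 : bb1 a' t y ∈ M := by
        have e := map_bb1 M.subtype ⟨a', mA⟩ ⟨t, mT⟩ ⟨y, mY⟩
        change _ = bb1 a' t y at e
        rw [← e]; exact Subtype.property _
      have mb0 : bb0 a' t y ∈ M := by
        have e := map_bb0 M.subtype ⟨a', mA⟩ ⟨t, mT⟩ ⟨y, mY⟩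
        change _ = bb0 a' t y at e
        rw [← e]; exact Subtype.property _
      have h1 : (2 * bb2 a' t y * sig + bb1 a' t y) ^ 2
          = bb1 a' t y ^ 2 - 4 * bb2 a' t y * bb0 a' t y := by
        rw [bet] at hbet
        linear_combination (4 * bb2 a' t y) * hbet
      have h2 : (2 * bb2 a' t y * sig + bb1 a' t y) ^ 2 ∈ M := by
        rw [h1]
        exact M.sub_mem (M.pow_mem mb1 2) (M.mul_mem (M.mul_mem m4 mb2) mb0)
      have h3 : 2 * bb2 a' t y * sig + bb1 a' t y ∈ M := by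
        exact hsq _ h2
      have h4 : sig = ((2 * bb2 a' t y * sig + bb1 a' t y) - bb1 a' t y) / (2 * bb2 a' t y) := by
        rw [eq_div_iff (mul_ne_zero (by norm_num) hb2)]
        ring
      rw [h4]
      exact M.div_mem (M.sub_mem h3 mb1) (M.mul_mem m2 mb2)
  have mP : phi ∈ M := by
    have h1 := h.rel
    rw [Kf] at h1
    have h2 : phi = (y * ((y - t) * (4 + 6 * t * sig)
        - t * y ^ 2 * ((y ^ 2 - 4 * t * y + 5 * t ^ 2) / 2 - a')) / 3 + sig ^ 2) / 2 := by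
      linear_combination (1 / 6 : Ω) * h1
    rw [h2]
    exact M.div_mem (M.add_mem (M.div_mem (M.mul_mem mY (M.sub_mem (M.mul_mem (M.sub_mem mY mT)
      (M.add_mem m4 (M.mul_mem (M.mul_mem m6 mT) mS))) (M.mul_mem (M.mul_mem mT (M.pow_mem mY 2))
      mG))) m3) (M.pow_mem mS 2)) m2
  exact ⟨mS, mP⟩

theorem isAlgebraic_of_rho {F A : Type} [Field F] [Field A] [Algebra F A] (a t : F) (y : A)
    (hne : rho a t t ≠ 0) (h : rho (algebraMap F A a) (algebraMap F A t) y = 0) :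
    IsAlgebraic F y := by
  refine ⟨rho (C a) (C t) X, ?_, ?_⟩
  · intro h0
    have h1 := congrArg (evalRingHom t) h0
    rw [map_zero] at h1
    have h2 := map_rho (evalRingHom t) (C a) (C t) (X : F[X])
    rw [h1] at h2
    simp only [coe_evalRingHom, eval_C, eval_X] at h2
    exact hne h2.symm
  · have h1 := map_rho ((aeval y : F[X] →ₐ[F] A) : F[X] →+* A) (C a) (C t) X
    simp only [RingHom.coe_coe, aeval_C, aeval_X] at h1
    rw [h1]
    exact h

theorem rho_frac_ne (a : ℂ) : rho (algebraMap ℂ[X] (FractionRing ℂ[X]) (C a))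
    (algebraMap ℂ[X] (FractionRing ℂ[X]) X) (algebraMap ℂ[X] (FractionRing ℂ[X]) X) ≠ 0 := by
  intro h0
  have h1 := map_rho (algebraMap ℂ[X] (FractionRing ℂ[X])) (C a) X X
  rw [h0] at h1
  exact rho_diag_ne a ((IsFractionRing.injective ℂ[X] (FractionRing ℂ[X]))
        (h1.trans (map_zero _).symm))

theorem ode_false_aux {F : Type} [Field F] [CharZero F] [Algebra F Ω] [Algebra F kk]
    [IsAlgClosed kk] {D : Derivation ℂ Ω Ω} {a : ℂ} {t phi sig y : Ω} (h : Ode D a t phi sig y)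
    (hy : y ≠ 0) (hne : 2 * phi - sig ^ 2 ≠ 0) (D0 : F → F)
    (h1 : ∀ f, D (algebraMap F Ω f) = algebraMap F Ω (D0 f))
    (h2 : ∀ f, dV (algebraMap F kk f) = algebraMap F kk (D0 f)) (A T : F)
    (eT : algebraMap F Ω T = t) (eA : algebraMap F Ω A = algebraMap ℂ Ω a)
    (eT' : algebraMap F kk T = tp (-1)) (eA' : algebraMap F kk A = algebraMap ℂ kk a)
    (hA : rho A T T ≠ 0) : False := by
  have hrho := rho_zero h hy hne
  obtain ⟨Φ, hΦ⟩ := exists_transfer (F := F) D dV D0 h1 h2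
  have mT : t ∈ algebraicClosure F Ω := by rw [← eT]; exact (algebraicClosure F Ω).algebraMap_mem _
  have mA : algebraMap ℂ Ω a ∈ algebraicClosure F Ω := by rw [← eA]; exact (algebraicClosure F Ω).algebraMap_mem _
  have mY : y ∈ algebraicClosure F Ω := by
    rw [mem_algebraicClosure_iff]
    refine isAlgebraic_of_rho A T y hA ?_
    rw [eT, eA]
    exact hrho
  obtain ⟨mS, mP⟩ := sig_mem h hy hne (algebraicClosure F Ω).toSubfield (by
    intro x hx
    have h2 : x ^ 2 ∈ algebraicClosure F Ω := hx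
    have h3 : x ∈ algebraicClosure F Ω := by
      rw [mem_algebraicClosure_iff] at h2 ⊢
      exact h2.of_pow (by norm_num)
    exact h3) mT mA mY
  change sig ∈ algebraicClosure F Ω at mS
  change phi ∈ algebraicClosure F Ω at mP
  have fT : Φ ⟨t, mT⟩ = tp (-1) := by
    have e1 : (⟨t, mT⟩ : algebraicClosure F Ω) = algebraMap F (algebraicClosure F Ω) T := Subtype.ext eT.symm
    rw [e1, Φ.commutes, eT']
  have fA : Φ ⟨algebraMap ℂ Ω a, mA⟩ = algebraMap ℂ kk a := by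
    have e1 : (⟨algebraMap ℂ Ω a, mA⟩ : algebraicClosure F Ω) = algebraMap F (algebraicClosure F Ω) A := Subtype.ext eA.symm
    rw [e1, Φ.commutes, eA']
  obtain ⟨k1, g1⟩ := hΦ ⟨phi, mP⟩
  obtain ⟨k2, g2⟩ := hΦ ⟨sig, mS⟩
  obtain ⟨k3, g3⟩ := hΦ ⟨y, mY⟩
  have hrel := h.rel
  have hdy := h.dy
  rw [Kf] at hrel
  rw [Kf, Nf] at hdy
  obtain ⟨q1, q2, q3, q4⟩ := eqs_transfer (algebraMap (algebraicClosure F Ω) Ω) (Φ : algebraicClosure F Ω →+* kk)
    (A := ⟨algebraMap ℂ Ω a, mA⟩) (T := ⟨t, mT⟩) (Y := ⟨y, mY⟩) (S := ⟨sig, mS⟩) (P := ⟨phi, mP⟩)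
    (DY := ⟨D y, k3⟩) (DS := ⟨D sig, k2⟩) (DP := ⟨D phi, k1⟩) h.dphi h.dsig hrel hdy
  simp only [RingHom.coe_coe] at q1 q2 q3 q4
  replace g1 : Φ ⟨D phi, k1⟩ = _ := g1
  replace g2 : Φ ⟨D sig, k2⟩ = _ := g2
  replace g3 : Φ ⟨D y, k3⟩ = _ := g3
  rw [g1] at q1
  rw [g2, fT] at q2
  rw [fT, fA] at q3
  rw [g3, fT, fA] at q4
  refine kk_false a (Φ ⟨phi, mP⟩) (Φ ⟨sig, mS⟩) (Φ ⟨y, mY⟩) ⟨dv_v, q1, q2, ?_, ?_⟩ ?_
  · rw [Kf]; exact q3
  · rw [Kf, Nf]; exact q4
  · intro h0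
    apply hy
    have h1 : (⟨y, mY⟩ : algebraicClosure F Ω) = 0 := Φ.injective (h0.trans (map_zero Φ).symm)
    exact congrArg Subtype.val h1

theorem ode_false {D : Derivation ℂ Ω Ω} {a : ℂ} {t phi sig y : Ω} (h : Ode D a t phi sig y)
    (hy : y ≠ 0) (hne : 2 * phi - sig ^ 2 ≠ 0) : False := by
  haveI : IsAlgClosed kk := hahn_isAlgClosed ℂ
  obtain ⟨α, hα⟩ := exists_ratFunc D t h.dt
  obtain ⟨β, hβ⟩ := exists_ratFunc dV (tp (-1)) dv_v
  obtain ⟨D0, hD0⟩ := exists_der_ratFunc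
  haveI : CharZero (FractionRing ℂ[X]) :=
    charZero_of_injective_algebraMap (IsFractionRing.injective ℂ[X] (FractionRing ℂ[X]))
  have eT := hα X
  rw [aeval_X] at eT
  have eA := hα (C a)
  rw [aeval_C] at eA
  have eT' := hβ X
  rw [aeval_X] at eT'
  have eA' := hβ (C a)
  rw [aeval_C] at eA'
  exact @ode_false_aux Ω _ _ (FractionRing ℂ[X]) _ _ α.toAlgebra β.toAlgebra _ D a t phi sig y h hy
    hne D0 (fun f => hD0 Ω D t h.dt α hα f) (fun f => hD0 kk dV (tp (-1)) dv_v β hβ f)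
    (algebraMap ℂ[X] (FractionRing ℂ[X]) (C a)) (algebraMap ℂ[X] (FractionRing ℂ[X]) X)
    eT eA eT' eA' (rho_frac_ne a)

end Pool.Agent.Work.MP_abe657_gt.T2
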