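import Pool.Agent.Work.MP_abe657_gt.T2.PartTwo
import Pool.Agent.Work.MP_abe657_gt.T2.OdeFalse
import Pool.Agent.Work.MP_abe657_gt.T2.NullFrame
import Pool.Agent.Work.MP_abe657_gt.T2.Geo

/-!
# MP_abe657_gt, part T2, AlgTwo: the algebraic theorem (helper28)
-/

set_option autoImplicit false
set_option linter.unusedVariables false

namespace Pool.Agent.Work.MP_abe657_gt.T2

variable {Ω : Type} [Field Ω] [Algebra ℂ Ω]

theorem sys_const [IsAlgClosed Ω] {D1 D2 : Derivation ℂ Ω Ω} {a b : ℂ} {al be H Q R phi sig : Ω}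
    (S : Sys D1 D2 a b al be H Q R phi sig) (hb : b ≠ 0) : D1 phi = 0 ∧ D2 phi = 0 := by
  by_contra h
  obtain ⟨D, a', t, phi', sig', y, hO, hy, hne⟩ := ode_of_sys S hb h
  exact ode_false hO hy hne

theorem alg_two [IsAlgClosed Ω] (d e : Derivation ℂ Ω Ω) (hde : ∀ u, d (e u) = e (d u))
    (X : Fin 3 → Ω) (hdet : detM d e X ≠ 0) (a b : ℂ) (hb : b ≠ 0) (c : Fin 3 → ℂ)
    (hP : ∀ i, lapX d e X (lapX d e X (X i - algebraMap ℂ Ω (c i)))
      - algebraMap ℂ Ω a * lapX d e X (X i - algebraMap ℂ Ω (c i))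
      + algebraMap ℂ Ω b * (X i - algebraMap ℂ Ω (c i)) = 0) :
    d (∑ i, (X i - algebraMap ℂ Ω (c i)) ^ 2) = 0 ∧ e (∑ i, (X i - algebraMap ℂ Ω (c i)) ^ 2) = 0 ∧
      ∀ i, (∑ j, (X j - algebraMap ℂ Ω (c j)) ^ 2) * lapX d e X (X i - algebraMap ℂ Ω (c i))
        = 2 * (X i - algebraMap ℂ Ω (c i)) := by
  haveI : CharZero Ω := charZero_of_injective_algebraMap (algebraMap ℂ Ω).injective
  set Y : Fin 3 → Ω := fun i => X i - algebraMap ℂ Ω (c i) with hY
  have hdY : ∀ (D : Derivation ℂ Ω Ω) i, D (Y i) = D (X i) := by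
    intro D i
    simp only [hY, map_sub, Derivation.map_algebraMap, sub_zero]
  have hsum : ∑ i, (X i - algebraMap ℂ Ω (c i)) ^ 2 = dp Y Y := by
    simp only [dp, hY, Fin.sum_univ_three]
    ring
  obtain ⟨p1, q1, p2, q2, n1, n2, n3⟩ := exists_null (met d d X) (met d e X) (met e e X) hdet
  obtain ⟨hW, -⟩ := null_solve n1 n2 n3
  obtain ⟨al, be, hcomm, hlap⟩ := lapFun_null d e hde n1 n2 n3
  set D1 := comb d e p1 q1 with hD1
  set D2 := comb d e p2 q2 with hD2
  have hdp : ∀ r1 s1 r2 s2 : Ω, dp (dv (comb d e r1 s1) Y) (dv (comb d e r2 s2) Y)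
      = met d d X * r1 * r2 + met d e X * (r1 * s2 + r2 * s1) + met e e X * s1 * s2 := by
    intro r1 s1 r2 s2
    simp only [dp, dv, hdY, comb_apply, met, Fin.sum_univ_three]
    ring
  have h11 : dp (dv D1 Y) (dv D1 Y) = 0 := by
    rw [hD1, hdp]; linear_combination n1
  have h22 : dp (dv D2 Y) (dv D2 Y) = 0 := by
    rw [hD2, hdp]; linear_combination n2
  have h12 : dp (dv D1 Y) (dv D2 Y) = 1 := by
    rw [hD1, hD2, hdp]; linear_combination n3
  have hlapX : ∀ u, lapX d e X u = lapFun d e (met d d X) (met d e X) (met e e X) u := fun u => rfl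
  have hneg : ∀ u, lapX d e X (-u) = -lapX d e X u := fun u => map_neg _ u
  obtain ⟨H, Q, R, sig, phi, nu, hphi, hLY, hYe, S⟩ := sys_of_frame D1 D2 al be hcomm Y h11 h22 h12
    a b (fun u => -(lapX d e X u)) (by
      intro u
      rw [hlapX, hlap]
      ring) (by
      intro i
      have := hP i
      simp only [hneg, neg_neg]
      linear_combination this)
  obtain ⟨k1, k2⟩ := sys_const S hb
  have e1 : p1 * d phi + q1 * e phi = 0 := by rw [← comb_apply]; exact k1
  have e2 : p2 * d phi + q2 * e phi = 0 := by rw [← comb_apply]; exact k2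
  have hd : d phi = 0 := by
    have : (p1 * q2 - p2 * q1) * d phi = 0 := by linear_combination q2 * e1 - q1 * e2
    exact (mul_eq_zero.1 this).resolve_left hW
  have he : e phi = 0 := by
    have : (p1 * q2 - p2 * q1) * e phi = 0 := by linear_combination p1 * e2 - p2 * e1
    exact (mul_eq_zero.1 this).resolve_left hW
  have hc2 : ∀ D : Derivation ℂ Ω Ω, D (2 : Ω) = 0 := fun D => by simpa using D.map_natCast 2
  rw [hsum, ← hphi]
  refine ⟨?_, ?_, ?_⟩
  · rw [Derivation.leibniz, hc2, hd]; simp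
  · rw [Derivation.leibniz, hc2, he]; simp
  · intro i
    have hYi := hYe i
    rw [k1, k2] at hYi
    have h3 := S.phi12
    rw [k2, map_zero] at h3
    have h4 := S.grad
    rw [k1, k2] at h4
    have h5 := hLY i
    have h6 : X i - algebraMap ℂ Ω (c i) = Y i := rfl
    rw [h6]
    linear_combination (-2 * phi) * h5 + (2 * H * nu i) * h4 + (2 * sig * nu i) * h3 - 2 * hYi

end Pool.Agent.Work.MP_abe657_gt.T2
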