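import Pool.Agent.Work.MP_abe657_gt.Defs

/-!
# MP_abe657_gt, part T2 (2-type surfaces), definitions (helper28)

`Ω` is a field containing `ℂ`, with `ℂ`-derivations (in the application: formal power series).
-/

set_option autoImplicit false

namespace Pool.Agent.Work.MP_abe657_gt.T2

variable {Ω : Type} [Field Ω] [Algebra ℂ Ω]

/-- bilinear dot product in `Ω³` -/
def dp (u v : Fin 3 → Ω) : Ω := u 0 * v 0 + u 1 * v 1 + u 2 * v 2

/-- componentwise derivative -/
def dv (D : Derivation ℂ Ω Ω) (u : Fin 3 → Ω) : Fin 3 → Ω := fun a => D (u a)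

/-- cross product -/
def cr (u v : Fin 3 → Ω) : Fin 3 → Ω :=
  ![u 1 * v 2 - u 2 * v 1, u 2 * v 0 - u 0 * v 2, u 0 * v 1 - u 1 * v 0]

/-- `i` times the cross product -/
noncomputable def icr (u v : Fin 3 → Ω) : Fin 3 → Ω :=
  fun a => algebraMap ℂ Ω Complex.I * cr u v a

/-- Structure equations, in a null frame `D1, D2` (`D1 X` and `D2 X` isotropic with product 1), of a
surface `X` with `L² Y + a L Y + b Y = 0`, `Y = X - c`, `L = div grad`.  Here `2 H` is the trace of the
shape operator, `Q, R` are the two components of its trace free part, `al, be` the connection,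
`phi = |Y|²/2`, `sig = ⟨Y, ν⟩`. -/
structure Sys (D1 D2 : Derivation ℂ Ω Ω) (a b : ℂ) (al be H Q R phi sig : Ω) : Prop where
  comm : ∀ u, D1 (D2 u) - D2 (D1 u) = be * D1 u - al * D2 u
  codQ : D2 Q = D1 H - 2 * be * Q
  codR : D1 R = D2 H - 2 * al * R
  sig1 : D1 sig = -(H * D1 phi + Q * D2 phi)
  sig2 : D2 sig = -(H * D2 phi + R * D1 phi)
  phi11 : D1 (D1 phi) = al * D1 phi + sig * Q
  phi22 : D2 (D2 phi) = be * D2 phi + sig * R
  phi12 : D1 (D2 phi) = 1 + sig * H - al * D2 phi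
  grad : 2 * D1 phi * D2 phi = 2 * phi - sig ^ 2
  tan1 : algebraMap ℂ Ω b * D1 phi = 8 * H * D1 H + 4 * Q * D2 H
  tan2 : algebraMap ℂ Ω b * D2 phi = 8 * H * D2 H + 4 * R * D1 H
  nor : 4 * (D1 (D2 H) + al * D2 H)
    = 4 * H * (H ^ 2 + Q * R) - 2 * algebraMap ℂ Ω a * H - algebraMap ℂ Ω b * sig

/-- the polynomial `K` of the rotational case -/
noncomputable def Kf (a t s y : Ω) : Ω :=
  (y - t) * (4 + 6 * t * s) - t * y ^ 2 * ((y ^ 2 - 4 * t * y + 5 * t ^ 2) / 2 - a)

/-- the polynomial `N` of the rotational case -/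
noncomputable def Nf (a t s y : Ω) : Ω :=
  t * ((y ^ 2 - 4 * t * y + 5 * t ^ 2) / 2 - a) - s

/-- the ordinary differential system of the rotational case (normalized to `b = 1`): `D = d/dt`,
`t = F` the mean curvature, `phi' = y` -/
structure Ode (D : Derivation ℂ Ω Ω) (a : ℂ) (t phi sig y : Ω) : Prop where
  dt : D t = 1
  dphi : D phi = y
  dsig : 2 * D sig = -(y * (y - t))
  rel : 3 * (2 * phi - sig ^ 2) = y * Kf (algebraMap ℂ Ω a) t sig y
  dy : D y * Kf (algebraMap ℂ Ω a) t sig y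
    = 3 * y * (2 + t * sig - y * Nf (algebraMap ℂ Ω a) t sig y)

end Pool.Agent.Work.MP_abe657_gt.T2
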