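import Pool.Agent.Work.MP_abe657_gt.T2.Defs

/-!
# MP_abe657_gt, part T2, Elim: elimination in the ordinary differential system of the rotational case:
`y` and `t` are algebraically dependent (helper28)
-/

set_option autoImplicit false
set_option linter.unusedSimpArgs false
set_option linter.unusedVariables false

namespace Pool.Agent.Work.MP_abe657_gt.T2

def bb2 {A : Type} [CommRing A] (a t y : A) : A :=
    144*t^3 - 216*t^2*y + 216*t*y^2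

def bb1 {A : Type} [CommRing A] (a t y : A) : A :=
    252*t^5*y - 540*t^4*y^2 + 168*t^3*y^3 - 72*t^3*y*a + 72*t^2*y^4 + 120*t^2*y^2*a + 192*t^2 -
    48*t*y^5 + 72*t*y^3*a - 96*t*y + 144*y^2

def bb0 {A : Type} [CommRing A] (a t y : A) : A :=
    255*t^6*y^3 - 429*t^5*y^4 + 296*t^4*y^5 - 192*t^4*y^3*a + 168*t^4*y - 92*t^3*y^6 +
    152*t^3*y^4*a - 440*t^3*y^2 + 9*t^2*y^7 - 36*t^2*y^5*a + 36*t^2*y^3*a^2 + 288*t^2*y^3 -
    48*t^2*y*a + t*y^8 - 4*t*y^6*a + 4*t*y^4*a^2 - 64*t*y^4 + 112*t*y^2*a + 64*t - 8*y^5 +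
    16*y^3*a + 32*y

def cc3 {A : Type} [CommRing A] (a t y : A) : A :=
    - 10368*t^4 + 18144*t^3*y - 12960*t^2*y^2 + 10368*t*y^3

def dd2 {A : Type} [CommRing A] (a t y : A) : A :=
    - 1804032*t^9*y + 8895744*t^8*y^2 - 24914304*t^7*y^3 - 124416*t^7*y*a + 33996672*t^6*y^4 +
    207360*t^6*y^2*a - 331776*t^6 - 24074496*t^5*y^5 + 2550528*t^5*y^3*a + 1741824*t^5*y +
    7817472*t^4*y^6 - 3172608*t^4*y^4*a - 1866240*t^4*y^2 - 404352*t^3*y^7 + 1368576*t^3*y^5*a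
    - 746496*t^3*y^3 - 466560*t^2*y^8 + 373248*t^2*y^6*a + 1368576*t^2*y^4

def ee1 {A : Type} [CommRing A] (a t y : A) : A :=
    11340*t^12 - 95580*t^11*y + 427410*t^10*y^2 + 1296*t^10*a - 1063908*t^9*y^3 - 2160*t^9*y*a
    + 1569426*t^8*y^4 - 85968*t^8*y^2*a - 1296*t^8*a^2 - 12096*t^8 - 1475592*t^7*y^5 +
    299496*t^7*y^3*a + 8208*t^7*y*a^2 + 26544*t^7*y + 937236*t^6*y^6 - 414996*t^6*y^4*a -
    2664*t^6*y^2*a^2 + 82104*t^6*y^2 + 10368*t^6*a - 418350*t^5*y^7 + 307812*t^5*y^5*a -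
    20736*t^5*y^3*a^2 - 291096*t^5*y^3 - 33696*t^5*y*a + 135126*t^4*y^8 - 139632*t^4*y^6*a +
    25776*t^4*y^4*a^2 + 349584*t^4*y^4 + 14832*t^4*y^2*a - 11520*t^4 - 32412*t^3*y^9 +
    42012*t^3*y^7*a - 11880*t^3*y^5*a^2 - 221280*t^3*y^5 + 30096*t^3*y^3*a + 28800*t^3*y +
    5814*t^2*y^10 - 8820*t^2*y^8*a + 2592*t^2*y^6*a^2 + 83448*t^2*y^6 - 30384*t^2*y^4*a -
    20160*t^2*y^2 - 702*t*y^11 + 1296*t*y^9*a - 432*t*y^7*a^2 - 18216*t*y^7 + 9504*t*y^5*a +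
    2880*t*y^3 + 1296*y^8 - 432*y^6*a

def ee0 {A : Type} [CommRing A] (a t y : A) : A :=
    - 2025*t^13*y^2 - 14580*t^12*y^3 + 147105*t^11*y^4 + 12150*t^11*y^2*a + 7560*t^11 -
    422390*t^10*y^5 - 33192*t^10*y^3*a - 60120*t^10*y + 628708*t^9*y^6 - 31392*t^9*y^4*a -
    8316*t^9*y^2*a^2 + 253740*t^9*y^2 + 864*t^9*a - 570544*t^8*y^7 + 182250*t^8*y^5*a +
    24624*t^8*y^3*a^2 - 639456*t^8*y^3 - 7200*t^8*y*a + 335204*t^7*y^8 - 245703*t^7*y^6*a -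
    8796*t^7*y^4*a^2 + 995002*t^7*y^4 + 1512*t^7*y^2*a^3 - 21216*t^7*y^2*a - 864*t^7*a^2 -
    8064*t^7 - 127934*t^6*y^9 + 167434*t^6*y^7*a - 24568*t^6*y^5*a^2 - 989060*t^6*y^5 -
    3744*t^6*y^3*a^3 + 133040*t^6*y^3*a + 7200*t^6*y*a^2 + 24992*t^6*y + 29855*t^5*y^10 -
    63899*t^5*y^8*a + 27388*t^5*y^6*a^2 + 643638*t^5*y^6 + 912*t^5*y^4*a^3 - 232088*t^5*y^4*a -
    9840*t^5*y^2*a^2 + 24592*t^5*y^2 + 6912*t^5*a - 3456*t^4*y^11 + 12858*t^4*y^9*a -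
    11100*t^4*y^7*a^2 - 274808*t^4*y^7 + 1656*t^4*y^5*a^3 + 194704*t^4*y^5*a - 3552*t^4*y^3*a^2
    - 140496*t^4*y^3 - 24768*t^4*y*a + 103*t^3*y^12 - 1147*t^3*y^10*a + 1912*t^3*y^8*a^2 +
    75686*t^3*y^8 - 924*t^3*y^6*a^3 - 89480*t^3*y^6*a + 14760*t^3*y^4*a^2 + 178384*t^3*y^4 +
    16416*t^3*y^2*a - 7680*t^3 - 48*t^2*y^13 + 162*t^2*y^11*a - 180*t^2*y^9*a^2 - 12836*t^2*y^9
    + 96*t^2*y^7*a^3 + 22864*t^2*y^7*a - 8784*t^2*y^5*a^2 - 108352*t^2*y^5 + 13536*t^2*y^3*a +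
    19200*t^2*y + 18*t*y^14 - 81*t*y^12*a + 108*t*y^10*a^2 + 1326*t*y^10 - 36*t*y^8*a^3 -
    3432*t*y^8*a + 1992*t*y^6*a^2 + 35520*t*y^6 - 17280*t*y^4*a - 13440*t*y^2 - 144*y^11 +
    360*y^9*a - 144*y^7*a^2 - 5808*y^7 + 4992*y^5*a + 1920*y^3

/-- the quadratic relation between `s` and `t, y` -/
def bet {A : Type} [CommRing A] (a t s y : A) : A :=
  bb2 a t y * s ^ 2 + bb1 a t y * s + bb0 a t y

/-- the relation between `t` and `y` -/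
def rho {A : Type} [CommRing A] (a t y : A) : A :=
  bb2 a t y * ee0 a t y ^ 2 - bb1 a t y * ee0 a t y * ee1 a t y + bb0 a t y * ee1 a t y ^ 2

variable {Ω : Type} [Field Ω] [Algebra ℂ Ω]

theorem K_ne_zero {D : Derivation ℂ Ω Ω} {a : ℂ} {t phi sig y : Ω} (h : Ode D a t phi sig y)
    (hne : 2 * phi - sig ^ 2 ≠ 0) : Kf (algebraMap ℂ Ω a) t sig y ≠ 0 := by
  haveI : CharZero Ω := charZero_of_injective_algebraMap (algebraMap ℂ Ω).injective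
  intro h0
  have := h.rel
  rw [h0, mul_zero] at this
  exact mul_ne_zero (by norm_num) hne this

theorem bet_zero {D : Derivation ℂ Ω Ω} {a : ℂ} {t phi sig y : Ω} (h : Ode D a t phi sig y)
    (hy : y ≠ 0) (hne : 2 * phi - sig ^ 2 ≠ 0) : bet (algebraMap ℂ Ω a) t sig y = 0 := by
  haveI : CharZero Ω := charZero_of_injective_algebraMap (algebraMap ℂ Ω).injective
  have hK := K_ne_zero h hne
  obtain ⟨hdt, hdphi, hdsig, hrel, hdy⟩ := h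
  set a' : Ω := algebraMap ℂ Ω a with ha'
  have hDa : D a' = 0 := D.map_algebraMap a
  have hc : ∀ (k : ℕ), D (k : Ω) = 0 := fun k => D.map_natCast k
  have hc2 : D (2 : Ω) = 0 := by simpa using hc 2
  have hc3 : D (3 : Ω) = 0 := by simpa using hc 3
  have hc4 : D (4 : Ω) = 0 := by simpa using hc 4
  have hc5 : D (5 : Ω) = 0 := by simpa using hc 5
  have hc6 : D (6 : Ω) = 0 := by simpa using hc 6
  have hds : D sig = -(y * (y - t)) / 2 := by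
    rw [eq_div_iff (by norm_num)]; linear_combination hdsig
  -- derivative of K
  have hK2 : 2 * Kf a' t sig y = 2 * ((y - t) * (4 + 6 * t * sig))
      - t * y ^ 2 * (y ^ 2 - 4 * t * y + 5 * t ^ 2 - 2 * a') := by
    rw [Kf]; ring
  have hDK : 2 * D (Kf a' t sig y) = 2 * ((D y - 1) * (4 + 6 * t * sig)
        + (y - t) * (6 * sig + 6 * t * D sig))
      - (y ^ 2 + 2 * t * y * D y) * (y ^ 2 - 4 * t * y + 5 * t ^ 2 - 2 * a')
      - t * y ^ 2 * (2 * y * D y - 4 * y - 4 * t * D y + 10 * t) := by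
    have := congrArg D hK2
    simp only [Derivation.leibniz, map_sub, map_add, Derivation.leibniz_pow, hDa, hc2, hc4, hc5, hc6,
      hdt, smul_eq_mul] at this
    simp at this
    linear_combination this
  have e1 : 3 * (2 * y - 2 * sig * D sig) = D y * Kf a' t sig y + y * D (Kf a' t sig y) := by
    have := congrArg D hrel
    simp only [Derivation.leibniz, map_sub, map_add, Derivation.leibniz_pow, hDa, hc2, hc3,
      hdphi, smul_eq_mul] at this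
    simp at this
    linear_combination this
  rw [hds] at hDK e1
  -- multiply by K and eliminate D y
  set Z : Ω := 3 * y * (2 + t * sig - y * Nf a' t sig y) with hZ
  set K : Ω := Kf a' t sig y with hKd
  have e2 : K * (2 * (6 * y + 3 * sig * (y * (y - t)))) = 2 * K * Z + y * (2 * K * (-1) * (4 + 6 * t * sig)
        + 2 * Z * (4 + 6 * t * sig)
        + 2 * K * ((y - t) * (6 * sig + 6 * t * (-(y * (y - t)) / 2)))
      - (K * y ^ 2 + 2 * t * y * Z) * (y ^ 2 - 4 * t * y + 5 * t ^ 2 - 2 * a')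
      - t * y ^ 2 * (2 * y * Z - 4 * K * y - 4 * t * Z + 10 * K * t)) := by
    linear_combination (2 * K) * e1 + (y * K) * hDK + (2 * K + y * (2 * (4 + 6 * t * sig)
      - 2 * t * y * (y ^ 2 - 4 * t * y + 5 * t ^ 2 - 2 * a') - t * y ^ 2 * (2 * y - 4 * t))) * hdy
  have e3 : y * bet a' t sig y = y * 0 := by
    rw [hZ, hKd, Kf, Nf] at e2
    rw [bet, bb2, bb1, bb0]
    linear_combination (-2 : Ω) * e2
  exact mul_left_cancel₀ hy e3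


set_option maxRecDepth 20000 in
theorem cub_zero {D : Derivation ℂ Ω Ω} {a : ℂ} {t phi sig y : Ω} (h : Ode D a t phi sig y)
    (hy : y ≠ 0) (hne : 2 * phi - sig ^ 2 ≠ 0) :
    ee1 (algebraMap ℂ Ω a) t y * sig + ee0 (algebraMap ℂ Ω a) t y = 0 ∨ t * y = 0 := by
  haveI : CharZero Ω := charZero_of_injective_algebraMap (algebraMap ℂ Ω).injective
  have hb := bet_zero h hy hne
  obtain ⟨hdt, hdphi, hdsig, hrel, hdy⟩ := h
  set a' : Ω := algebraMap ℂ Ω a with ha'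
  have hDa : D a' = 0 := D.map_algebraMap a
  have hc : ∀ (k : ℕ) [k.AtLeastTwo], D (OfNat.ofNat k : Ω) = 0 := fun k _ => D.map_natCast k
  have hds : D sig = -(y * (y - t)) / 2 := by
    rw [eq_div_iff (by norm_num)]; linear_combination hdsig
  have hDb : (    1530*t^5*y^3 - 2145*t^4*y^4 + 1260*t^4*y*sig + 1184*t^3*y^5 - 768*t^3*y^3*a' - 2160*t^3*y^2*sig
    + 672*t^3*y - 276*t^2*y^6 + 456*t^2*y^4*a' + 504*t^2*y^3*sig - 1320*t^2*y^2 - 216*t^2*y*sig*a' +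
    432*t^2*sig^2 + 18*t*y^7 - 72*t*y^5*a' + 144*t*y^4*sig + 72*t*y^3*a'^2 + 576*t*y^3 +
    240*t*y^2*sig*a' - 432*t*y*sig^2 - 96*t*y*a' + 384*t*sig + y^8 - 4*y^6*a' - 48*y^5*sig + 4*y^4*a'^2 -
    64*y^4 + 72*y^3*sig*a' + 216*y^2*sig^2 + 112*y^2*a' - 96*y*sig + 64) + (    252*t^5*y - 540*t^4*y^2 + 168*t^3*y^3 - 72*t^3*y*a' + 288*t^3*sig + 72*t^2*y^4 + 120*t^2*y^2*a'
    - 432*t^2*y*sig + 192*t^2 - 48*t*y^5 + 72*t*y^3*a' + 432*t*y^2*sig - 96*t*y + 144*y^2) * D sig + (    765*t^6*y^2 - 1716*t^5*y^3 + 252*t^5*sig + 1480*t^4*y^4 - 576*t^4*y^2*a' - 1080*t^4*y*sig +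
    168*t^4 - 552*t^3*y^5 + 608*t^3*y^3*a' + 504*t^3*y^2*sig - 880*t^3*y - 72*t^3*sig*a' + 63*t^2*y^6
    - 180*t^2*y^4*a' + 288*t^2*y^3*sig + 108*t^2*y^2*a'^2 + 864*t^2*y^2 + 240*t^2*y*sig*a' -
    216*t^2*sig^2 - 48*t^2*a' + 8*t*y^7 - 24*t*y^5*a' - 240*t*y^4*sig + 16*t*y^3*a'^2 - 256*t*y^3 +
    216*t*y^2*sig*a' + 432*t*y*sig^2 + 224*t*y*a' - 96*t*sig - 40*y^4 + 48*y^2*a' + 288*y*sig + 32) * D y = 0 := by
    have := congrArg D hb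
    rw [map_zero, bet, bb2, bb1, bb0] at this
    simp only [Derivation.leibniz, map_sub, map_add, Derivation.leibniz_pow, hDa, hc,
      hdt, smul_eq_mul, nsmul_eq_mul, mul_zero, mul_one, add_zero, zero_add] at this
    push_cast at this
    linear_combination this
  rw [hds] at hDb
  set Z : Ω := 3 * y * (2 + t * sig - y * Nf a' t sig y) with hZ
  have e2 : Kf a' t sig y * (    1530*t^5*y^3 - 2145*t^4*y^4 + 1260*t^4*y*sig + 1184*t^3*y^5 - 768*t^3*y^3*a' - 2160*t^3*y^2*sig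
    + 672*t^3*y - 276*t^2*y^6 + 456*t^2*y^4*a' + 504*t^2*y^3*sig - 1320*t^2*y^2 - 216*t^2*y*sig*a' +
    432*t^2*sig^2 + 18*t*y^7 - 72*t*y^5*a' + 144*t*y^4*sig + 72*t*y^3*a'^2 + 576*t*y^3 +
    240*t*y^2*sig*a' - 432*t*y*sig^2 - 96*t*y*a' + 384*t*sig + y^8 - 4*y^6*a' - 48*y^5*sig + 4*y^4*a'^2 -
    64*y^4 + 72*y^3*sig*a' + 216*y^2*sig^2 + 112*y^2*a' - 96*y*sig + 64) + Kf a' t sig y * (-(y * (y - t)) / 2) * (    252*t^5*y - 540*t^4*y^2 + 168*t^3*y^3 - 72*t^3*y*a' + 288*t^3*sig + 72*t^2*y^4 + 120*t^2*y^2*a'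
    - 432*t^2*y*sig + 192*t^2 - 48*t*y^5 + 72*t*y^3*a' + 432*t*y^2*sig - 96*t*y + 144*y^2) + Z * (    765*t^6*y^2 - 1716*t^5*y^3 + 252*t^5*sig + 1480*t^4*y^4 - 576*t^4*y^2*a' - 1080*t^4*y*sig +
    168*t^4 - 552*t^3*y^5 + 608*t^3*y^3*a' + 504*t^3*y^2*sig - 880*t^3*y - 72*t^3*sig*a' + 63*t^2*y^6
    - 180*t^2*y^4*a' + 288*t^2*y^3*sig + 108*t^2*y^2*a'^2 + 864*t^2*y^2 + 240*t^2*y*sig*a' -
    216*t^2*sig^2 - 48*t^2*a' + 8*t*y^7 - 24*t*y^5*a' - 240*t*y^4*sig + 16*t*y^3*a'^2 - 256*t*y^3 +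
    216*t*y^2*sig*a' + 432*t*y*sig^2 + 224*t*y*a' - 96*t*sig - 40*y^4 + 48*y^2*a' + 288*y*sig + 32) = 0 := by
    linear_combination (Kf a' t sig y) * hDb - (    765*t^6*y^2 - 1716*t^5*y^3 + 252*t^5*sig + 1480*t^4*y^4 - 576*t^4*y^2*a' - 1080*t^4*y*sig +
    168*t^4 - 552*t^3*y^5 + 608*t^3*y^3*a' + 504*t^3*y^2*sig - 880*t^3*y - 72*t^3*sig*a' + 63*t^2*y^6
    - 180*t^2*y^4*a' + 288*t^2*y^3*sig + 108*t^2*y^2*a'^2 + 864*t^2*y^2 + 240*t^2*y*sig*a' -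
    216*t^2*sig^2 - 48*t^2*a' + 8*t*y^7 - 24*t*y^5*a' - 240*t*y^4*sig + 16*t*y^3*a'^2 - 256*t*y^3 +
    216*t*y^2*sig*a' + 432*t*y*sig^2 + 224*t*y*a' - 96*t*sig - 40*y^4 + 48*y^2*a' + 288*y*sig + 32) * hdy
  by_cases hty : t * y = 0
  · exact Or.inr hty
  left
  have e3 : (20736 * (t * y) ^ 2) * (ee1 a' t y * sig + ee0 a' t y) = (20736 * (t * y) ^ 2) * 0 := by
    rw [hZ, Kf, Nf] at e2
    rw [bet, bb2, bb1, bb0] at hb
    rw [ee1, ee0]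
    linear_combination (4 * (144*t^3 - 216*t^2*y + 216*t*y^2) ^ 2) * e2 -
      ((144*t^3 - 216*t^2*y + 216*t*y^2) *
      (- 10368*t^4 + 18144*t^3*y - 12960*t^2*y^2 + 10368*t*y^3) * sig +
      (- 1804032*t^9*y + 8895744*t^8*y^2 - 24914304*t^7*y^3 - 124416*t^7*y*a' + 33996672*t^6*y^4 +
      207360*t^6*y^2*a' - 331776*t^6 - 24074496*t^5*y^5 + 2550528*t^5*y^3*a' + 1741824*t^5*y +
      7817472*t^4*y^6 - 3172608*t^4*y^4*a' - 1866240*t^4*y^2 - 404352*t^3*y^7 + 1368576*t^3*y^5*a' -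
      746496*t^3*y^3 - 466560*t^2*y^8 + 373248*t^2*y^6*a' + 1368576*t^2*y^4)) * hb
  exact mul_left_cancel₀ (mul_ne_zero (by norm_num) (pow_ne_zero 2 hty)) e3

end Pool.Agent.Work.MP_abe657_gt.T2
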