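import Pool.Agent.Work.MP_abe657_gt.T2.Defs

/-!
# MP_abe657_gt, part T2, PartOne: `H` and `phi` are functionally dependent (helper28)
-/

set_option autoImplicit false
set_option linter.unusedSimpArgs false
set_option linter.unusedVariables false

namespace Pool.Agent.Work.MP_abe657_gt.T2

variable {Ω : Type} [Field Ω] [Algebra ℂ Ω]

/-- the final contradiction, in commuting coordinates `(H, phi)`; `e` is `D1 H * D2 H` -/
theorem coord_false (A B : Derivation ℂ Ω Ω) (hAB : ∀ u, A (B u) = B (A u)) (a b H sig S e l n : Ω)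
    (hb : b ≠ 0) (hAa : A a = 0) (hBa : B a = 0) (hAb : A b = 0) (hBb : B b = 0)
    (hAH : A H = 1) (hBH : B H = 0) (hchar : (2 : Ω) ≠ 0) (hchar3 : (3 : Ω) ≠ 0)
    (hchar11 : (11 : Ω) ≠ 0)
    (h1 : B sig = -3 * H) (h2 : 4 * S = 16 * H ^ 2 - b * A sig)
    (h3 : 4 * B e = b * l) (h4 : A e = n - 2 * H * l)
    (h5 : 4 * n = 4 * H * (H ^ 2 + S) - 2 * a * H - b * sig)
    (h6 : 12 * e + 8 * H * n + 4 * S * l = b * (1 + sig * H)) : False := by
  have hc : ∀ (D : Derivation ℂ Ω Ω) (k : ℕ), D (k : Ω) = 0 := fun D k => D.map_natCast k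
  have hc2 : ∀ (D : Derivation ℂ Ω Ω), D (2 : Ω) = 0 := fun D => by simpa using hc D 2
  have hc3 : ∀ (D : Derivation ℂ Ω Ω), D (3 : Ω) = 0 := fun D => by simpa using hc D 3
  have hc4 : ∀ (D : Derivation ℂ Ω Ω), D (4 : Ω) = 0 := fun D => by simpa using hc D 4
  have hc6 : ∀ (D : Derivation ℂ Ω Ω), D (6 : Ω) = 0 := fun D => by simpa using hc D 6
  have hc8 : ∀ (D : Derivation ℂ Ω Ω), D (8 : Ω) = 0 := fun D => by simpa using hc D 8
  have hc9 : ∀ (D : Derivation ℂ Ω Ω), D (9 : Ω) = 0 := fun D => by simpa using hc D 9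
  have hc12 : ∀ (D : Derivation ℂ Ω Ω), D (12 : Ω) = 0 := fun D => by simpa using hc D 12
  have hc15 : ∀ (D : Derivation ℂ Ω Ω), D (15 : Ω) = 0 := fun D => by simpa using hc D 15
  have hc16 : ∀ (D : Derivation ℂ Ω Ω), D (16 : Ω) = 0 := fun D => by simpa using hc D 16
  have hc24 : ∀ (D : Derivation ℂ Ω Ω), D (24 : Ω) = 0 := fun D => by simpa using hc D 24
  have hc66 : ∀ (D : Derivation ℂ Ω Ω), D (66 : Ω) = 0 := fun D => by simpa using hc D 66
  have h4' : (4 : Ω) ≠ 0 := by
    have : (4 : Ω) = 2 * 2 := by norm_num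
    rw [this]; exact mul_ne_zero hchar hchar
  have hH : H ≠ 0 := by
    rintro rfl
    rw [map_zero] at hAH
    exact zero_ne_one hAH
  -- B S
  have hBAs : B (A sig) = -3 := by
    rw [← hAB, h1]
    simp [Derivation.leibniz, hc3, hAH]
  have hBS : 4 * B S = 3 * b := by
    have := congrArg B h2
    simp only [Derivation.leibniz, map_sub, Derivation.leibniz_pow, hBH, hBb, hc4, hc16, smul_eq_mul,
      hBAs] at this
    linear_combination this
  have hBn : 2 * B n = 3 * b * H := by
    have := congrArg B h5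
    simp only [Derivation.leibniz, map_sub, map_add, Derivation.leibniz_pow, hBH, hBb, hBa, hc4, hc2,
      smul_eq_mul, h1] at this
    have h2' : 2 * (2 * B n) = 2 * (3 * b * H) := by linear_combination this + H * hBS
    exact mul_left_cancel₀ hchar h2'
  -- (I)
  have hI : 6 * b * l + 15 * b * H ^ 2 + 4 * S * B l = 0 := by
    have := congrArg B h6
    simp only [Derivation.leibniz, map_sub, map_add, Derivation.leibniz_pow, hBH, hBb, hBa, hc4, hc8,
      hc12, smul_eq_mul, h1, Derivation.map_one_eq_zero] at this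
    linear_combination this - 3 * h3 - 4 * H * hBn - l * hBS
  -- (II)
  have hII : 9 * b * B l + 4 * S * B (B l) = 0 := by
    have := congrArg B hI
    simp only [Derivation.leibniz, map_sub, map_add, Derivation.leibniz_pow, hBH, hBb, hBa, hc4, hc6,
      hc15, smul_eq_mul, map_zero] at this
    linear_combination this - B l * hBS
  -- (III)
  have hIII : b * A l = 6 * b * H - 8 * H * B l := by
    have e1 := congrArg A h3
    have e2 := congrArg B h4
    simp only [Derivation.leibniz, map_sub, map_add, hBH, hc4, hAb, hc2, smul_eq_mul] at e1 e2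
    rw [hAB] at e1
    linear_combination (-1 : Ω) * e1 + 4 * e2 + 2 * hBn
  have hIIIb : b * B (A l) = -8 * H * B (B l) := by
    have := congrArg B hIII
    simp only [Derivation.leibniz, map_sub, map_add, hBH, hc6, hBb, hc8, smul_eq_mul] at this
    linear_combination this
  -- (IV)
  have hIV : 66 * b * H + (24 * H + 4 * A S) * B l = 0 := by
    have := congrArg A hI
    simp only [Derivation.leibniz, map_sub, map_add, Derivation.leibniz_pow, hAH, hAb, hAa, hc4, hc6,
      hc15, smul_eq_mul, map_zero] at this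
    rw [hAB] at this
    have h7 : b * (66 * b * H + (24 * H + 4 * A S) * B l) = b * 0 := by
      linear_combination b * this - 6 * b * hIII - 4 * S * hIIIb + 8 * H * hII
    exact mul_left_cancel₀ hb h7
  have hBAS : B (A S) = 0 := by
    have := congrArg A hBS
    simp only [Derivation.leibniz, hc4, hc3, hAb, smul_eq_mul] at this
    rw [hAB] at this
    have h7 : 4 * B (A S) = 4 * 0 := by linear_combination this
    exact mul_left_cancel₀ h4' h7
  have hV : (24 * H + 4 * A S) * B (B l) = 0 := by
    have := congrArg B hIV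
    simp only [Derivation.leibniz, map_add, hBH, hBb, hc66, hc24, hc4, smul_eq_mul, map_zero,
      hBAS] at this
    linear_combination this
  have h66 : (66 : Ω) * b * H ≠ 0 := by
    have : (66 : Ω) = 2 * 3 * 11 := by norm_num
    rw [this]
    exact mul_ne_zero (mul_ne_zero (mul_ne_zero (mul_ne_zero hchar hchar3) hchar11) hb) hH
  rcases mul_eq_zero.mp hV with h | h
  · rw [h, zero_mul, add_zero] at hIV
    exact h66 hIV
  · rw [h, mul_zero, add_zero] at hII
    have h9 : (9 : Ω) ≠ 0 := by
      have : (9 : Ω) = 3 * 3 := by norm_num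
      rw [this]; exact mul_ne_zero hchar3 hchar3
    have hBl : B l = 0 := by
      rcases mul_eq_zero.mp hII with h' | h'
      · exact absurd h' (mul_ne_zero h9 hb)
      · exact h'
    rw [hBl, mul_zero, add_zero] at hIV
    exact h66 hIV


/-- characteristic zero facts -/
theorem charZero_of_complex (Ω : Type) [Field Ω] [Algebra ℂ Ω] : CharZero Ω :=
  charZero_of_injective_algebraMap (algebraMap ℂ Ω).injective

/-- Where the mean curvature and `|Y|²/2` are functionally independent there is no solution. -/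
theorem J_eq_zero {D1 D2 : Derivation ℂ Ω Ω} {a b : ℂ} {al be H Q R phi sig : Ω}
    (h : Sys D1 D2 a b al be H Q R phi sig) (hb : b ≠ 0) :
    D1 H * D2 phi - D2 H * D1 phi = 0 := by
  by_contra hJ
  haveI : CharZero Ω := charZero_of_complex Ω
  set b' : Ω := algebraMap ℂ Ω b with hb'
  set a' : Ω := algebraMap ℂ Ω a with ha'
  have hb0 : b' ≠ 0 := by rw [hb']; exact (map_ne_zero _).mpr hb
  have hD : ∀ (D : Derivation ℂ Ω Ω), D a' = 0 ∧ D b' = 0 := fun D =>
    ⟨D.map_algebraMap a, D.map_algebraMap b⟩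
  set J : Ω := D1 H * D2 phi - D2 H * D1 phi with hJd
  -- the coordinate derivations
  set A : Derivation ℂ Ω Ω := (D2 phi / J) • D1 - (D1 phi / J) • D2 with hA
  set B : Derivation ℂ Ω Ω := (D1 H / J) • D2 - (D2 H / J) • D1 with hB
  have hAu : ∀ u, A u = (D2 phi / J) * D1 u - (D1 phi / J) * D2 u := fun u => by
    rw [hA]; simp [Derivation.sub_apply, Derivation.smul_apply]
  have hBu : ∀ u, B u = (D1 H / J) * D2 u - (D2 H / J) * D1 u := fun u => by
    rw [hB]; simp [Derivation.sub_apply, Derivation.smul_apply]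
  have hAH : A H = 1 := by
    rw [hAu]
    have : D2 phi / J * D1 H - D1 phi / J * D2 H = J / J := by rw [hJd]; ring
    rw [this, div_self hJ]
  have hBH : B H = 0 := by rw [hBu]; ring
  have hAp : A phi = 0 := by rw [hAu]; ring
  have hBp : B phi = 1 := by
    rw [hBu]
    have : D1 H / J * D2 phi - D2 H / J * D1 phi = J / J := by rw [hJd]; ring
    rw [this, div_self hJ]
  -- they commute
  obtain ⟨m1, m2, hm⟩ : ∃ m1 m2 : Ω, ∀ u, A (B u) - B (A u) = m1 * D1 u + m2 * D2 u := by
    set p1 := D2 phi / J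
    set p2 := D1 phi / J
    set q1 := D1 H / J
    set q2 := D2 H / J
    refine ⟨-(A q2) - B p1 + (p1 * q1 - p2 * q2) * be, A q1 + B p2 - (p1 * q1 - p2 * q2) * al,
      fun u => ?_⟩
    have e1 : A (B u) = A q1 * D2 u + q1 * A (D2 u) - A q2 * D1 u - q2 * A (D1 u) := by
      rw [hBu u, map_sub, Derivation.leibniz, Derivation.leibniz]
      simp only [smul_eq_mul]; ring
    have e2 : B (A u) = B p1 * D1 u + p1 * B (D1 u) - B p2 * D2 u - p2 * B (D2 u) := by
      rw [hAu u, map_sub, Derivation.leibniz, Derivation.leibniz]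
      simp only [smul_eq_mul]; ring
    rw [e1, e2, hAu (D2 u), hAu (D1 u), hBu (D1 u), hBu (D2 u)]
    linear_combination (p1 * q1 - p2 * q2) * h.comm u
  have hAB : ∀ u, A (B u) = B (A u) := by
    have hA0 : ∀ (D : Derivation ℂ Ω Ω), D (0 : Ω) = 0 := fun D => map_zero D
    have hA1 : ∀ (D : Derivation ℂ Ω Ω), D (1 : Ω) = 0 := fun D => D.map_one_eq_zero
    have e1 := hm H
    have e2 := hm phi
    rw [hBH, hAH, hA0, hA1, sub_zero] at e1
    rw [hBp, hAp, hA0, hA1, sub_zero] at e2
    have hm1 : m1 * J = 0 := by rw [hJd]; linear_combination (-D2 phi) * e1 + D2 H * e2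
    have hm2 : m2 * J = 0 := by rw [hJd]; linear_combination (D1 phi) * e1 - D1 H * e2
    have h1 : m1 = 0 := (mul_eq_zero.mp hm1).resolve_right hJ
    have h2 : m2 = 0 := (mul_eq_zero.mp hm2).resolve_right hJ
    intro u
    have := hm u
    rw [h1, h2] at this
    linear_combination this
  -- second derivatives of `H`
  have hT1 := h.tan1
  have hT2 := h.tan2
  rw [← hb'] at hT1 hT2
  have hc8 : ∀ (D : Derivation ℂ Ω Ω), D (8 : Ω) = 0 := fun D => by
    simpa using D.map_natCast 8
  have hc4 : ∀ (D : Derivation ℂ Ω Ω), D (4 : Ω) = 0 := fun D => by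
    simpa using D.map_natCast 4
  have h21 : D2 (D1 H) = D1 (D2 H) - be * D1 H + al * D2 H := by linear_combination (-1 : Ω) * h.comm H
  have h21p : D2 (D1 phi) = 1 + sig * H - be * D1 phi := by
    linear_combination (-1 : Ω) * h.comm phi + h.phi12
  set H11 : Ω := D1 (D1 H) - al * D1 H with hH11
  set H22 : Ω := D2 (D2 H) - be * D2 H with hH22
  set n : Ω := D1 (D2 H) + al * D2 H with hn
  have k12 : b' * (1 + sig * H) = 12 * (D1 H * D2 H) + 8 * H * n + 4 * Q * H22 := by
    have e := congrArg D2 hT1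
    simp only [Derivation.leibniz, map_add, smul_eq_mul, (hD D2).2, hc8, hc4] at e
    rw [h21, h21p, h.codQ] at e
    rw [hH22, hn]
    linear_combination e + be * hT1
  have k21 : b' * (1 + sig * H) = 12 * (D1 H * D2 H) + 8 * H * n + 4 * R * H11 := by
    have e := congrArg D1 hT2
    simp only [Derivation.leibniz, map_add, smul_eq_mul, (hD D1).2, hc8, hc4] at e
    rw [h.phi12, h.codR] at e
    rw [hH11, hn]
    linear_combination e + al * hT2
  have hcomm : R * H11 = Q * H22 := by
    have : (4 : Ω) * (R * H11) = 4 * (Q * H22) := by linear_combination k12 - k21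
    exact mul_left_cancel₀ (by norm_num) this
  obtain ⟨l, hl1, hl2⟩ : ∃ l : Ω, H11 = l * Q ∧ H22 = l * R := by
    by_cases hQ : Q = 0
    · by_cases hR : R = 0
      · exfalso
        apply hJ
        have e1 := h.codQ
        have e2 := h.codR
        rw [hQ, map_zero] at e1
        rw [hR, map_zero] at e2
        have e3 : D1 H = 0 := by linear_combination (-1 : Ω) * e1
        have e4 : D2 H = 0 := by linear_combination (-1 : Ω) * e2
        rw [hJd, e3, e4]; ring
      · refine ⟨H22 / R, ?_, ?_⟩
        · rw [hQ, mul_zero]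
          rw [hQ, zero_mul] at hcomm
          exact (mul_eq_zero.mp hcomm).resolve_left hR
        · field_simp
    · refine ⟨H11 / Q, by field_simp, ?_⟩
      field_simp
      linear_combination (-1 : Ω) * hcomm
  -- the relations in coordinates
  set S : Ω := Q * R with hS
  set e : Ω := D1 H * D2 H with he
  have hbJ : b' * J = 4 * (R * D1 H ^ 2 - Q * D2 H ^ 2) := by
    rw [hJd]; linear_combination D1 H * hT2 - D2 H * hT1
  have r1 : B sig = -3 * H := by
    have : J * b' * B sig = J * b' * (-3 * H) := by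
      have e0 : J * B sig = D1 H * D2 sig - D2 H * D1 sig := by
        rw [hBu]; field_simp
      have e1 : J * b' * B sig = b' * (D1 H * D2 sig - D2 H * D1 sig) := by rw [← e0]; ring
      rw [e1, h.sig1, h.sig2]
      have e2 : b' * (R * D1 H * D1 phi - Q * D2 H * D2 phi)
          = 8 * H * (R * D1 H ^ 2 - Q * D2 H ^ 2) := by
        linear_combination R * D1 H * hT1 - Q * D2 H * hT2
      have e3 : b' * (D1 H * -(H * D2 phi + R * D1 phi) - D2 H * -(H * D1 phi + Q * D2 phi))
          = -(H * (b' * J)) - b' * (R * D1 H * D1 phi - Q * D2 H * D2 phi) := by rw [hJd]; ring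
      rw [e3, e2]
      linear_combination (2 * H) * hbJ
    exact mul_left_cancel₀ (mul_ne_zero hJ hb0) this
  have r2 : 4 * S = 16 * H ^ 2 - b' * A sig := by
    have : J * b' * (b' * A sig) = J * b' * (16 * H ^ 2 - 4 * S) := by
      have e0 : J * A sig = D2 phi * D1 sig - D1 phi * D2 sig := by
        rw [hAu]; field_simp
      have e1 : J * b' * (b' * A sig) = b' ^ 2 * (D2 phi * D1 sig - D1 phi * D2 sig) := by
        rw [← e0]; ring
      rw [e1, h.sig1, h.sig2]
      have e2 : b' ^ 2 * (R * D1 phi ^ 2 - Q * D2 phi ^ 2)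
          = 16 * (4 * H ^ 2 - Q * R) * (R * D1 H ^ 2 - Q * D2 H ^ 2) := by
        linear_combination R * (b' * D1 phi + (8 * H * D1 H + 4 * Q * D2 H)) * hT1
          - Q * (b' * D2 phi + (8 * H * D2 H + 4 * R * D1 H)) * hT2
      rw [hS]
      linear_combination e2 - (4 * (4 * H ^ 2 - Q * R)) * hbJ
    have := mul_left_cancel₀ (mul_ne_zero hJ hb0) this
    linear_combination this
  have d1e : D1 e = l * (Q * D2 H) + n * D1 H := by
    rw [he, Derivation.leibniz, smul_eq_mul, smul_eq_mul]
    have e1 : D1 (D1 H) = l * Q + al * D1 H := by rw [← hl1, hH11]; ring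
    have e2 : D1 (D2 H) = n - al * D2 H := by rw [hn]; ring
    rw [e1, e2]; ring
  have d2e : D2 e = l * (R * D1 H) + n * D2 H := by
    rw [he, Derivation.leibniz, smul_eq_mul, smul_eq_mul]
    have e1 : D2 (D2 H) = l * R + be * D2 H := by rw [← hl2, hH22]; ring
    have e2 : D2 (D1 H) = n - be * D1 H := by rw [h21, hn]; ring
    rw [e1, e2]; ring
  have r3 : 4 * B e = b' * l := by
    have e1 : J * (4 * B e) = J * (b' * l) := by
      have e0 : J * B e = D1 H * D2 e - D2 H * D1 e := by rw [hBu]; field_simp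
      have : J * (4 * B e) = 4 * (D1 H * D2 e - D2 H * D1 e) := by rw [← e0]; ring
      rw [this, d1e, d2e]
      linear_combination (-l) * hbJ
    exact mul_left_cancel₀ hJ e1
  have r4 : A e = n - 2 * H * l := by
    have e1 : J * b' * A e = J * b' * (n - 2 * H * l) := by
      have e0 : J * A e = D2 phi * D1 e - D1 phi * D2 e := by rw [hAu]; field_simp
      have : J * b' * A e = b' * D2 phi * D1 e - b' * D1 phi * D2 e := by
        have : J * b' * A e = b' * (J * A e) := by ring
        rw [this, e0]; ring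
      rw [this, d1e, d2e, hT1, hT2]
      linear_combination (2 * H * l - n) * hbJ
    exact mul_left_cancel₀ (mul_ne_zero hJ hb0) e1
  have r5 : 4 * n = 4 * H * (H ^ 2 + S) - 2 * a' * H - b' * sig := by
    have := h.nor
    rw [← hn] at this
    rw [hS]; exact this
  have r6 : 12 * e + 8 * H * n + 4 * S * l = b' * (1 + sig * H) := by
    rw [k12, hl2, hS, he]; ring
  exact coord_false A B hAB a' b' H sig S e l n hb0 (hD A).1 (hD B).1 (hD A).2 (hD B).2 hAH hBH
    (by norm_num) (by norm_num) (by norm_num) r1 r2 r3 r4 r5 r6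

end Pool.Agent.Work.MP_abe657_gt.T2
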