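import Pool.Agent.Work.MP_abe657_gt.T2.PartOne

/-!
# MP_abe657_gt, part T2, PartTwo: reduction of the dependent case to an ordinary differential system
(helper28)
-/

set_option autoImplicit false
set_option linter.unusedSimpArgs false
set_option linter.unusedVariables false

namespace Pool.Agent.Work.MP_abe657_gt.T2

variable {Ω : Type} [Field Ω] [Algebra ℂ Ω]

/-- the two null directions play the same role -/
theorem Sys.swap {D1 D2 : Derivation ℂ Ω Ω} {a b : ℂ} {al be H Q R phi sig : Ω}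
    (h : Sys D1 D2 a b al be H Q R phi sig) : Sys D2 D1 a b be al H R Q phi sig where
  comm := fun u => by linear_combination (-1 : Ω) * h.comm u
  codQ := h.codR
  codR := h.codQ
  sig1 := h.sig2
  sig2 := h.sig1
  phi11 := h.phi22
  phi22 := h.phi11
  phi12 := by linear_combination (-1 : Ω) * h.comm phi + h.phi12
  grad := by linear_combination h.grad
  tan1 := h.tan2
  tan2 := h.tan1
  nor := by linear_combination (-4 : Ω) * h.comm H + h.nor

/-- if `R = 0` then `phi` is constant -/
theorem phi_const_of_R_zero {D1 D2 : Derivation ℂ Ω Ω} {a b : ℂ} {al be H Q R phi sig : Ω}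
    (h : Sys D1 D2 a b al be H Q R phi sig) (hb : b ≠ 0) (hJ : D1 H * D2 phi - D2 H * D1 phi = 0)
    (hR : R = 0) : D1 phi = 0 ∧ D2 phi = 0 := by
  haveI : CharZero Ω := charZero_of_complex Ω
  set b' : Ω := algebraMap ℂ Ω b with hb'
  have hb0 : b' ≠ 0 := by rw [hb']; exact (map_ne_zero _).mpr hb
  have hT1 := h.tan1
  have hT2 := h.tan2
  rw [← hb'] at hT1 hT2
  have hH2 : D2 H = 0 := by
    have := h.codR
    rw [hR, map_zero] at this
    linear_combination (-1 : Ω) * this
  have hp2 : D2 phi = 0 := by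
    rw [hH2, hR] at hT2
    have : b' * D2 phi = 0 := by linear_combination hT2
    exact (mul_eq_zero.mp this).resolve_left hb0
  refine ⟨?_, hp2⟩
  have e1 : 1 + sig * H = 0 := by
    have := h.phi12
    rw [hp2, map_zero] at this
    linear_combination (-1 : Ω) * this
  have e2 : 2 * phi - sig ^ 2 = 0 := by
    rw [← h.grad, hp2, mul_zero]
  have e3 : D1 phi = sig * D1 sig := by
    have := congrArg D1 e2
    have hc2 : D1 (2 : Ω) = 0 := by simpa using D1.map_natCast 2
    simp only [Derivation.leibniz, map_sub, Derivation.leibniz_pow, hc2, smul_eq_mul, map_zero] at this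
    have h2 : (2 : Ω) * D1 phi = 2 * (sig * D1 sig) := by
      simp at this
      linear_combination this
    exact mul_left_cancel₀ (by norm_num) h2
  have e4 : D1 sig = -(H * D1 phi) := by
    rw [h.sig1, hp2]; ring
  have e5 : D1 sig * H + sig * D1 H = 0 := by
    have := congrArg D1 e1
    simp only [Derivation.leibniz, map_add, smul_eq_mul, map_zero, Derivation.map_one_eq_zero] at this
    linear_combination this
  rw [hH2] at hT1
  have e6 : D1 phi * (b' * sig - 8 * H ^ 3) = 0 := by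
    linear_combination sig * hT1 + 8 * H * e5 - 8 * H ^ 2 * e4
  rcases mul_eq_zero.mp e6 with h0 | h0
  · exact h0
  · have e7 : b' + 8 * H ^ 4 = 0 := by linear_combination (-H) * h0 + b' * e1
    have e8 : H ^ 3 * D1 H = 0 := by
      have := congrArg D1 e7
      have hc8 : D1 (8 : Ω) = 0 := by simpa using D1.map_natCast 8
      have hDb : D1 b' = 0 := D1.map_algebraMap b
      simp only [Derivation.leibniz, map_add, Derivation.leibniz_pow, hc8, hDb, smul_eq_mul,
        map_zero] at this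
      have h2 : (32 : Ω) * (H ^ 3 * D1 H) = 32 * 0 := by
        simp at this
        rcases this with h | h <;> simp [h]
      exact mul_left_cancel₀ (by norm_num) h2
    have hH : H ≠ 0 := by
      rintro rfl
      apply hb0
      linear_combination e7
    have e9 : D1 H = 0 := (mul_eq_zero.mp e8).resolve_left (pow_ne_zero _ hH)
    rw [e9] at hT1
    have : b' * D1 phi = 0 := by linear_combination hT1
    exact (mul_eq_zero.mp this).resolve_left hb0

/-- the rotational case, before normalization -/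
theorem ode_raw {D1 D2 : Derivation ℂ Ω Ω} {a b : ℂ} {al be H Q R phi sig : Ω}
    (h : Sys D1 D2 a b al be H Q R phi sig) (hb : b ≠ 0)
    (hphi : ¬ (D1 phi = 0 ∧ D2 phi = 0)) :
    ∃ (D : Derivation ℂ Ω Ω) (t k y : Ω), D t = 1 ∧ D phi = y ∧ y ≠ 0 ∧ 2 * phi - sig ^ 2 ≠ 0 ∧
      algebraMap ℂ Ω b * y = 2 * t + 2 * k ∧ 2 * D sig = -(y * (t + 2 * k)) ∧
      3 * (2 * phi - sig ^ 2) = y * (2 * k * (2 + sig * (t - 2 * k))
        + algebraMap ℂ Ω b * y * (2 + sig * t - y * (t ^ 3 / 2 + 2 * t * k ^ 2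
          - algebraMap ℂ Ω a * t - algebraMap ℂ Ω b * sig))) ∧
      D y * (2 * phi - sig ^ 2) = y ^ 2 * (2 + sig * t - y * (t ^ 3 / 2 + 2 * t * k ^ 2
          - algebraMap ℂ Ω a * t - algebraMap ℂ Ω b * sig)) := by
  haveI : CharZero Ω := charZero_of_complex Ω
  have hJ := J_eq_zero h hb
  set b' : Ω := algebraMap ℂ Ω b with hb'
  set a' : Ω := algebraMap ℂ Ω a with ha'
  have hb0 : b' ≠ 0 := by rw [hb']; exact (map_ne_zero _).mpr hb
  have hT1 := h.tan1
  have hT2 := h.tan2
  rw [← hb'] at hT1 hT2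
  have hR : R ≠ 0 := fun h0 => hphi (phi_const_of_R_zero h hb hJ h0)
  have hQ : Q ≠ 0 := fun h0 => by
    have := phi_const_of_R_zero h.swap hb (by linear_combination (-1 : Ω) * hJ) h0
    exact hphi ⟨this.2, this.1⟩
  have hRQ : R * D1 H ^ 2 = Q * D2 H ^ 2 := by
    have : (4 : Ω) * (R * D1 H ^ 2) = 4 * (Q * D2 H ^ 2) := by
      linear_combination b' * hJ - D1 H * hT2 + D2 H * hT1
    exact mul_left_cancel₀ (by norm_num) this
  have hH12 : D1 H ≠ 0 ∧ D2 H ≠ 0 := by
    have key : ¬ (D1 H = 0 ∧ D2 H = 0) := by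
      rintro ⟨h1, h2⟩
      rw [h1, h2] at hT1 hT2
      apply hphi
      constructor
      · have : b' * D1 phi = 0 := by linear_combination hT1
        exact (mul_eq_zero.mp this).resolve_left hb0
      · have : b' * D2 phi = 0 := by linear_combination hT2
        exact (mul_eq_zero.mp this).resolve_left hb0
    constructor
    · intro h1
      apply key
      refine ⟨h1, ?_⟩
      rw [h1] at hRQ
      have : Q * D2 H ^ 2 = 0 := by linear_combination (-1 : Ω) * hRQ
      exact pow_eq_zero_iff (two_ne_zero) |>.mp ((mul_eq_zero.mp this).resolve_left hQ)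
    · intro h1
      apply key
      refine ⟨?_, h1⟩
      rw [h1] at hRQ
      have : R * D1 H ^ 2 = 0 := by linear_combination hRQ
      exact pow_eq_zero_iff (two_ne_zero) |>.mp ((mul_eq_zero.mp this).resolve_left hR)
  obtain ⟨hH1, hH2⟩ := hH12
  set k : Ω := Q * D2 H / D1 H with hk
  set y : Ω := D1 phi / (2 * D1 H) with hy
  have hkH : k * D1 H = Q * D2 H := by rw [hk]; field_simp
  have hyH : 2 * y * D1 H = D1 phi := by rw [hy]; field_simp
  have hyH2 : 2 * y * D2 H = D2 phi := by
    have : D1 H * (2 * y * D2 H) = D1 H * D2 phi := by linear_combination D2 H * hyH - hJ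
    exact mul_left_cancel₀ hH1 this
  have hkk : k ^ 2 = Q * R := by
    have : D1 H ^ 2 * k ^ 2 = D1 H ^ 2 * (Q * R) := by
      linear_combination (k * D1 H + Q * D2 H) * hkH - Q * hRQ
    exact mul_left_cancel₀ (pow_ne_zero 2 hH1) this
  have hkH2 : k * D2 H = R * D1 H := by
    have : D1 H * (k * D2 H) = D1 H * (R * D1 H) := by linear_combination D2 H * hkH - hRQ
    exact mul_left_cancel₀ hH1 this
  have hby : b' * y = 2 * (2 * H) + 2 * k := by
    have : (2 * D1 H) * (b' * y) = (2 * D1 H) * (2 * (2 * H) + 2 * k) := by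
      linear_combination b' * hyH + hT1 - 4 * hkH
    exact mul_left_cancel₀ (mul_ne_zero (by norm_num) hH1) this
  set D : Derivation ℂ Ω Ω := (2 * D1 H)⁻¹ • D1 with hD
  have hDu : ∀ u, D u = (2 * D1 H)⁻¹ * D1 u := fun u => by rw [hD]; simp [Derivation.smul_apply]
  have h2H1 : (2 : Ω) * D1 H ≠ 0 := mul_ne_zero (by norm_num) hH1
  have hDu' : ∀ u, 2 * D1 H * D u = D1 u := fun u => by
    rw [hDu]; field_simp
  have hc2 : D1 (2 : Ω) = 0 := by simpa using D1.map_natCast 2
  have hp1 : D1 phi ≠ 0 := by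
    intro h0
    apply hphi
    refine ⟨h0, ?_⟩
    rw [h0] at hyH
    have hy0 : y = 0 := by
      have : D1 H * y = 0 := by
        have : (2 : Ω) * (D1 H * y) = 2 * 0 := by linear_combination hyH
        exact mul_left_cancel₀ (by norm_num) this
      exact (mul_eq_zero.mp this).resolve_left hH1
    rw [← hyH2, hy0]; ring
  have hy0 : y ≠ 0 := by
    intro h0
    apply hp1
    rw [← hyH, h0]; ring
  have hp2 : D2 phi ≠ 0 := by
    rw [← hyH2]
    exact mul_ne_zero (mul_ne_zero (by norm_num) hy0) hH2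
  -- second derivatives
  have hc4 : D1 (4 : Ω) = 0 := by simpa using D1.map_natCast 4
  have hc8 : D1 (8 : Ω) = 0 := by simpa using D1.map_natCast 8
  have hDb : D1 b' = 0 := D1.map_algebraMap b
  set H11 : Ω := D1 (D1 H) - al * D1 H with hH11
  set n : Ω := D1 (D2 H) + al * D2 H with hn
  have k21 : b' * (1 + sig * H) = 12 * (D1 H * D2 H) + 8 * H * n + 4 * R * H11 := by
    have e := congrArg D1 hT2
    simp only [Derivation.leibniz, map_add, smul_eq_mul, hDb, hc8, hc4] at e
    rw [h.phi12, h.codR] at e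
    rw [hH11, hn]
    linear_combination e + al * hT2
  have q1 : 4 * D y * (D1 H * D2 H) + 2 * y * n = 1 + sig * H := by
    have e := congrArg D1 hyH2
    simp only [Derivation.leibniz, smul_eq_mul, hc2] at e
    rw [h.phi12, ← hDu' y] at e
    rw [hn]
    linear_combination e + al * hyH2
  have q2 : 2 * y * H11 + 4 * D1 H ^ 2 * D y = sig * Q := by
    have e := congrArg D1 hyH
    simp only [Derivation.leibniz, smul_eq_mul, hc2] at e
    rw [h.phi11, ← hDu' y] at e
    rw [hH11]
    linear_combination e - al * hyH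
  have hnor := h.nor
  rw [← hn, ← ha', ← hb'] at hnor
  have hE : y ^ 2 * (8 * (D1 H * D2 H)) = 2 * phi - sig ^ 2 := by
    rw [← h.grad, ← hyH, ← hyH2]; ring
  set E : Ω := 8 * (D1 H * D2 H) with hEd
  set t : Ω := 2 * H with ht
  set N : Ω := t ^ 3 / 2 + 2 * t * k ^ 2 - a' * t - b' * sig with hN
  have hNn : N = 4 * n := by
    rw [hnor, hN, ht, hkk]; ring
  have q1' : D y * E = 2 + sig * t - y * N := by
    rw [hNn, hEd, ht]
    linear_combination 2 * q1
  have q3 : E * y * (3 - b' * D y) = 2 * k * (2 + sig * (t - 2 * k)) := by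
    -- multiply k21 by y
    have e1 : 4 * R * (y * H11) = 2 * (sig * k ^ 2) - k * E * D y := by
      have : 4 * R * (y * H11) = 2 * R * (sig * Q - 4 * D1 H ^ 2 * D y) := by
        linear_combination 2 * R * q2
      rw [this, hkk, hEd]
      linear_combination (8 * D1 H * D y) * hkH2
    have e2 : y * (b' * (1 + sig * H)) = (3 / 2) * (E * y) + t * (y * N)
        + (2 * (sig * k ^ 2) - k * E * D y) := by
      rw [← e1, k21, hEd, hNn, ht]; ring
    rw [ht]
    rw [ht] at e2 q1'
    have e3 : y * (b' * (1 + sig * H)) = (b' * y) * (1 + sig * H) := by ring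
    rw [e3] at e2
    linear_combination (-2 : Ω) * e2 + (2 + 2 * sig * H - E * D y) * hby - 2 * (2 * H) * q1'
  refine ⟨D, t, k, y, ?_, ?_, hy0, ?_, hby, ?_, ?_, ?_⟩
  · rw [hDu, ht, Derivation.leibniz, hc2]
    simp only [smul_eq_mul, mul_zero, add_zero]
    field_simp
  · rw [hDu, hy]; field_simp
  · rw [← h.grad]
    exact mul_ne_zero (mul_ne_zero (by norm_num) hp1) hp2
  · have : (2 * D1 H) * (2 * D sig) = (2 * D1 H) * (-(y * (t + 2 * k))) := by
      have e1 : (2 * D1 H) * (2 * D sig) = 2 * D1 sig := by rw [← hDu' sig]; ring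
      rw [e1, h.sig1, ht]
      linear_combination (-2 * Q) * hyH2 * (-1) + (2 * H) * hyH + 4 * y * hkH
    exact mul_left_cancel₀ h2H1 this
  · rw [← hE]
    linear_combination y * q3 + (b' * y ^ 2) * q1'
  · rw [← hE]
    linear_combination y ^ 2 * q1'


/-- the rotational case, normalized -/
theorem ode_of_sys {D1 D2 : Derivation ℂ Ω Ω} {a b : ℂ} {al be H Q R phi sig : Ω}
    (h : Sys D1 D2 a b al be H Q R phi sig) (hb : b ≠ 0)
    (hphi : ¬ (D1 phi = 0 ∧ D2 phi = 0)) :
    ∃ (D : Derivation ℂ Ω Ω) (a' : ℂ) (t phi' sig' y : Ω), Ode D a' t phi' sig' y ∧ y ≠ 0 ∧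
      2 * phi' - sig' ^ 2 ≠ 0 := by
  haveI : CharZero Ω := charZero_of_complex Ω
  obtain ⟨D, t, k, y, hDt, hDp, hy, hne, hby, hDs, hA, hdy⟩ := ode_raw h hb hphi
  obtain ⟨g0, hg0⟩ := IsAlgClosed.exists_pow_nat_eq b (n := 4) (by norm_num)
  have hg0' : g0 ≠ 0 := by
    rintro rfl
    apply hb
    rw [← hg0]; norm_num
  set g : Ω := algebraMap ℂ Ω g0 with hg
  have hgne : g ≠ 0 := (map_ne_zero _).mpr hg0'
  have hgb : algebraMap ℂ Ω b = g ^ 4 := by rw [hg, ← map_pow, hg0]
  have hDg : ∀ (E : Derivation ℂ Ω Ω), E g = 0 := fun E => E.map_algebraMap g0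
  set D' : Derivation ℂ Ω Ω := g • D with hD'
  have hD'u : ∀ u, D' u = g * D u := fun u => by rw [hD']; simp [Derivation.smul_apply]
  set t' : Ω := t / g with ht'
  set p' : Ω := g ^ 2 * phi with hp'
  set s' : Ω := g * sig with hs'
  set y' : Ω := g ^ 3 * y with hy'
  have htt : t = g * t' := by rw [ht']; field_simp
  have hss : g * sig = s' := rfl
  set A0 : ℂ := a / g0 ^ 2 with hA0
  have hAA : algebraMap ℂ Ω a = g ^ 2 * algebraMap ℂ Ω A0 := by
    rw [hA0, hg, ← map_pow, ← map_mul]
    congr 1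
    field_simp
  set a' : Ω := algebraMap ℂ Ω A0 with ha'
  rw [hgb] at hby hA hdy
  rw [hAA] at hA hdy
  have hky : 2 * k = g * (y' - 2 * t') := by
    have : g ^ 4 * y = g * y' := by rw [hy']; ring
    rw [this, htt] at hby
    linear_combination (-1 : Ω) * hby
  have hk : k = g * (y' - 2 * t') / 2 := by
    rw [← hky]; field_simp
  have hne' : 2 * p' - s' ^ 2 = g ^ 2 * (2 * phi - sig ^ 2) := by rw [hp', hs']; ring
  -- the common factor
  have hN : g * (2 + sig * t - y * (t ^ 3 / 2 + 2 * t * k ^ 2 - g ^ 2 * a' * t - g ^ 4 * sig))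
      = g * (2 + t' * s' - y' * Nf a' t' s' y') := by
    rw [htt, hk, Nf, hs', hy']; ring
  have hN' : (2 + sig * t - y * (t ^ 3 / 2 + 2 * t * k ^ 2 - g ^ 2 * a' * t - g ^ 4 * sig))
      = (2 + t' * s' - y' * Nf a' t' s' y') := mul_left_cancel₀ hgne hN
  have hrel : 3 * (2 * p' - s' ^ 2) = y' * Kf a' t' s' y' := by
    rw [hne']
    have e1 : 3 * (g ^ 2 * (2 * phi - sig ^ 2)) = g ^ 2 * (3 * (2 * phi - sig ^ 2)) := by ring
    rw [e1, hA, hN', htt, hk, Kf, Nf, hs', hy']
    ring
  have hy'ne : y' ≠ 0 := mul_ne_zero (pow_ne_zero _ hgne) hy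
  refine ⟨D', A0, t', p', s', y', ⟨?_, ?_, ?_, hrel, ?_⟩, hy'ne, ?_⟩
  · rw [hD'u, ht']
    have : D (t / g) = D t / g := by
      have e1 : D t = D (g * (t / g)) := by congr 1
      rw [Derivation.leibniz, hDg, smul_zero, add_zero, smul_eq_mul] at e1
      rw [e1]; field_simp
    rw [this, hDt]; field_simp
  · rw [hD'u, hp', Derivation.leibniz, Derivation.leibniz_pow, hDg, hDp, hy']
    simp only [smul_eq_mul, smul_zero, mul_zero, add_zero]
    ring
  · rw [hD'u, hs', Derivation.leibniz, hDg]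
    simp only [smul_eq_mul, smul_zero, mul_zero, add_zero]
    have e1 : 2 * (g * (g * D sig)) = g ^ 2 * (2 * D sig) := by ring
    rw [e1, hDs, htt, hk, hy']
    ring
  · have e1 : D' y' = g ^ 4 * D y := by
      rw [hD'u, hy', Derivation.leibniz, Derivation.leibniz_pow, hDg]
      simp only [smul_eq_mul, smul_zero, mul_zero, add_zero]
      ring
    have e2 : y' * (D' y' * Kf a' t' s' y') = y' * (3 * y' * (2 + t' * s' - y' * Nf a' t' s' y')) := by
      have e3 : y' * (D' y' * Kf a' t' s' y') = D' y' * (y' * Kf a' t' s' y') := by ring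
      rw [e3, ← hrel, hne', e1, ← hN']
      have e4 : g ^ 4 * D y * (3 * (g ^ 2 * (2 * phi - sig ^ 2)))
          = 3 * g ^ 6 * (D y * (2 * phi - sig ^ 2)) := by ring
      rw [e4, hdy, hy']
      ring
    exact mul_left_cancel₀ hy'ne e2
  · rw [hne']
    exact mul_ne_zero (pow_ne_zero _ hgne) hne

end Pool.Agent.Work.MP_abe657_gt.T2
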