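import Pool.Agent.Work.MP_abe657_gt.SurfDefs2

/-!
# MP_abe657_gt, part T2: definitions for surfaces of 2-type (helper28)
-/

set_option autoImplicit false

namespace Pool.Agent.Work.MP_abe657_gt.T2

open scoped Manifold ContDiff

variable {M : Type*} [TopologicalSpace M] [ChartedSpace E2 M]

/-- `x = c + y1 + y2` with `y1, y2` smooth, `Δ y1 = l1 y1` and `Δ y2 = l2 y2` -/
def TwoEigen (x : M → E3) (c : E3) (y1 y2 : M → E3) (l1 l2 : ℝ) : Prop :=
  SmoothMap y1 ∧ SmoothMap y2 ∧ (∀ a, IsEigen x (fun p => y1 p a) l1) ∧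
    (∀ a, IsEigen x (fun p => y2 p a) l2) ∧ ∀ p, x p = c + y1 p + y2 p

/-- `Δ (Δ x) = p Δ x - q (x - c)`, componentwise and in all charts of the atlas -/
def QuadEq (x : M → E3) (c : E3) (p q : ℝ) : Prop :=
  ∀ e ∈ atlas E2 M, ∀ u ∈ e.target, ∀ a : Fin 3,
    lap (x ∘ e.symm) (lap (x ∘ e.symm) (fun w => x (e.symm w) a)) u
      = p * lap (x ∘ e.symm) (fun w => x (e.symm w) a) u - q * (x (e.symm u) a - c a)

end Pool.Agent.Work.MP_abe657_gt.T2
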