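import Pool.Agent.Work.MP_abe657_gt.T2.TwoDefs
import Pool.Agent.Work.MP_abe657_gt.T2.AlgTwo
import Pool.Agent.Work.MP_abe657_gt.Main2

/-!
# MP_abe657_gt, part T2: final assembly for surfaces of 2-type (helper28)
-/

set_option autoImplicit false
set_option linter.unusedVariables false

namespace Pool.Agent.Work.MP_abe657_gt.T2

open scoped Manifold ContDiff Topology
open Pool.Agent.Work.MP_abe657_gt.TaylorLapAux Pool.Agent.Work.MP_abe657_gt.TaylorAux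

theorem lap_smooth {X : E2 → E3} {u0 : E2} (hX : ContDiffAt ℝ ∞ X u0)
    (himm : Function.Injective (fderiv ℝ X u0)) {f : E2 → ℝ} (hf : ContDiffAt ℝ ∞ f u0) :
    ContDiffAt ℝ ∞ (lap X f) u0 := by
  have hpos := gdet_pos himm
  have hs : ContDiffAt ℝ ∞ (fun u => Real.sqrt (gdet X u)) u0 := (gdet_smooth hX).sqrt hpos.ne'
  have hs0 : Real.sqrt (gdet X u0) ≠ 0 := (Real.sqrt_pos.2 hpos).ne'
  have p0 := ty_smooth 0 hf
  have p1 := ty_smooth 1 hf
  have g00 := gm_smooth hX 0 0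
  have g01 := gm_smooth hX 0 1
  have g11 := gm_smooth hX 1 1
  have sA' : ContDiffAt ℝ ∞ (fun w => (gm X 1 1 w * pd 0 f w - gm X 0 1 w * pd 1 f w) /
      Real.sqrt (gdet X w)) u0 := ((g11.mul p0).sub (g01.mul p1)).div hs hs0
  have sB' : ContDiffAt ℝ ∞ (fun w => (gm X 0 0 w * pd 1 f w - gm X 0 1 w * pd 0 f w) /
      Real.sqrt (gdet X w)) u0 := ((g00.mul p1).sub (g01.mul p0)).div hs hs0
  have s1 : ContDiffAt ℝ ∞ (fun u => 1 / Real.sqrt (gdet X u)) u0 := contDiffAt_const.div hs hs0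
  exact s1.neg.mul ((ty_smooth 0 sA').add (ty_smooth 1 sB'))

section

variable {M : Type*} [TopologicalSpace M] [ChartedSpace E2 M] [IsManifold (𝓡 2) ∞ M]

/-- the algebraic form of the equation at all Taylor expansions -/
def AlgEq (x : M → E3) (c : E3) (a b : ℂ) : Prop :=
  ∀ e ∈ atlas E2 M, ∀ u0 ∈ e.target, ∀ T : (E2 → ℝ) → LL, IsTaylor u0 T → ∀ i : Fin 3,
    lapX dT dS (fun a => T (fun u => (x ∘ e.symm) u a))
      (lapX dT dS (fun a => T (fun u => (x ∘ e.symm) u a))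
        (T (fun u => (x ∘ e.symm) u i) - algebraMap ℂ LL ((c i : ℝ) : ℂ)))
      - algebraMap ℂ LL a * lapX dT dS (fun a => T (fun u => (x ∘ e.symm) u a))
        (T (fun u => (x ∘ e.symm) u i) - algebraMap ℂ LL ((c i : ℝ) : ℂ))
      + algebraMap ℂ LL b * (T (fun u => (x ∘ e.symm) u i) - algebraMap ℂ LL ((c i : ℝ) : ℂ)) = 0

/-- Taylor series of the squared distance -/
theorem T_sq {u0 : E2} {T : (E2 → ℝ) → LL} (hT : IsTaylor u0 T) (X : E2 → E3) (c : E3)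
    (hXa : ∀ a, ContDiffAt ℝ ∞ (fun u => X u a) u0) :
    T (fun u => ∑ a, (X u a - c a) ^ 2)
      = ∑ a, (T (fun u => X u a) - algebraMap ℂ LL ((c a : ℝ) : ℂ)) ^ 2 := by
  have h1 : ∀ a, ContDiffAt ℝ ∞ (fun u => X u a + -c a) u0 :=
    fun a => (hXa a).add contDiffAt_const
  have h2 : (fun u => ∑ a, (X u a - c a) ^ 2)
      = fun u => ∑ a, (fun a u => (fun u => X u a + -c a) u
        * (fun u => X u a + -c a) u) a u := by
    funext u
    refine Finset.sum_congr rfl fun a _ => ?_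
    ring
  rw [h2, taylor_sum hT _ (fun a => (h1 a).mul (h1 a))]
  refine Finset.sum_congr rfl fun a _ => ?_
  rw [hT.mul _ _ (h1 a) (h1 a), hT.add _ _ (hXa a) contDiffAt_const, hT.const]
  rw [Complex.ofReal_neg, map_neg]
  ring

theorem const_of_algEq [ConnectedSpace M] (x : M → E3) (hx : ContMDiff (𝓡 2) 𝓘(ℝ, E3) ∞ x)
    (himm : ∀ p, Function.Injective (mfderiv (𝓡 2) 𝓘(ℝ, E3) x p)) (c : E3) (a b : ℂ) (hb : b ≠ 0)
    (H : AlgEq x c a b) : ∃ v, ∀ p, (∑ a, (x p a - c a) ^ 2) = v := by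
  have hsm : ∀ e ∈ atlas E2 M, ∀ a, ContDiffOn ℝ ∞ ((fun p => x p a) ∘ e.symm) e.target :=
    fun e he a => chart_contDiffOn_comp x hx a e he
  refine const_of_pd_zero (fun p => ∑ a, (x p a - c a) ^ 2) ?_ ?_
  · intro e he
    have : ((fun p => ∑ a, (x p a - c a) ^ 2) ∘ e.symm)
        = fun u => ∑ a, (((fun p => x p a) ∘ e.symm) u - c a) ^ 2 := rfl
    rw [this]
    exact ContDiffOn.sum fun a _ => ((hsm e he a).sub contDiffOn_const).pow 2
  · intro e he u0 hu0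
    have hnhds : e.target ∈ 𝓝 u0 := e.open_target.mem_nhds hu0
    obtain ⟨T, hT⟩ := exists_taylor u0
    have hXs : ContDiffAt ℝ ∞ (x ∘ e.symm) u0 := (chart_contDiffOn x hx e he).contDiffAt hnhds
    have hXa : ∀ a, ContDiffAt ℝ ∞ (fun u => (x ∘ e.symm) u a) u0 :=
      fun a => (hsm e he a).contDiffAt hnhds
    obtain ⟨hdet, hlap⟩ := taylor_lap u0 T hT (x ∘ e.symm) hXs
      (chart_injective x hx himm e he u0 hu0)
    obtain ⟨r1, r2, -⟩ := alg_two dT dS dT_dS_comm _ hdet a b hb (fun i => ((c i : ℝ) : ℂ))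
      (H e he u0 hu0 T hT)
    have hsq := T_sq hT (x ∘ e.symm) c hXa
    have hh : ContDiffAt ℝ ∞ (fun u => ∑ a, ((x ∘ e.symm) u a - c a) ^ 2) u0 :=
      ContDiffAt.sum fun a _ => ((hXa a).sub contDiffAt_const).pow 2
    have h0 : T (pd 0 (fun u => ∑ a, ((x ∘ e.symm) u a - c a) ^ 2)) = algebraMap ℂ LL 0 := by
      rw [hT.pd0 _ hh, hsq, r1, map_zero]
    have h1 : T (pd 1 (fun u => ∑ a, ((x ∘ e.symm) u a - c a) ^ 2)) = algebraMap ℂ LL 0 := by
      rw [hT.pd1 _ hh, hsq, r2, map_zero]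
    have hfun : ((fun p => ∑ a, (x p a - c a) ^ 2) ∘ e.symm)
        = fun u => ∑ a, ((x ∘ e.symm) u a - c a) ^ 2 := rfl
    rw [hfun]
    intro i
    fin_cases i
    · have h2 := hT.value _ 0 (contDiffAt_pd 0 _ hh) h0
      exact_mod_cast h2.symm
    · have h2 := hT.value _ 0 (contDiffAt_pd 1 _ hh) h1
      exact_mod_cast h2.symm

theorem algEq_of_quad (x : M → E3) (hx : ContMDiff (𝓡 2) 𝓘(ℝ, E3) ∞ x)
    (himm : ∀ p, Function.Injective (mfderiv (𝓡 2) 𝓘(ℝ, E3) x p)) (c : E3) (p q : ℝ)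
    (h : QuadEq x c p q) : AlgEq x c (p : ℂ) (q : ℂ) := by
  intro e he u0 hu0 T hT i
  have hnhds : e.target ∈ 𝓝 u0 := e.open_target.mem_nhds hu0
  have hXs : ∀ u ∈ e.target, ContDiffAt ℝ ∞ (x ∘ e.symm) u :=
    fun u hu => (chart_contDiffOn x hx e he).contDiffAt (e.open_target.mem_nhds hu)
  have hXa : ContDiffAt ℝ ∞ (fun u => (x ∘ e.symm) u i) u0 :=
    (chart_contDiffOn_comp x hx i e he).contDiffAt hnhds
  have hinj := chart_injective x hx himm e he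
  obtain ⟨hdet, hlap⟩ := taylor_lap u0 T hT (x ∘ e.symm) (hXs u0 hu0) (hinj u0 hu0)
  have s1 := lap_smooth (hXs u0 hu0) (hinj u0 hu0) hXa
  have s2 := lap_smooth (hXs u0 hu0) (hinj u0 hu0) s1
  have hc0 : ∀ z : ℂ, lapX dT dS (fun a => T (fun u => (x ∘ e.symm) u a)) (algebraMap ℂ LL z) = 0 := by
    intro z
    change lapFun dT dS _ _ _ (algebraMap ℂ LL z) = 0
    simp [lapFun]
  rw [map_sub, hc0, sub_zero, ← hlap _ hXa, ← hlap _ s1]
  have e1 : T (lap (x ∘ e.symm) (lap (x ∘ e.symm) (fun u => (x ∘ e.symm) u i)))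
      = T (fun u => p * lap (x ∘ e.symm) (fun u => (x ∘ e.symm) u i) u
        + (-q) * ((x ∘ e.symm) u i + -c i)) := by
    apply hT.congr
    filter_upwards [hnhds] with u hu
    have := h e he u hu i
    change lap (x ∘ e.symm) (lap (x ∘ e.symm) (fun w => x (e.symm w) i)) u = _
    rw [this]
    change _ = p * lap (x ∘ e.symm) (fun w => x (e.symm w) i) u + -q * (x (e.symm u) i + -c i)
    ring
  have s3 : ContDiffAt ℝ ∞ (fun u => (x ∘ e.symm) u i + -c i) u0 := hXa.add contDiffAt_const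
  have s4 : ContDiffAt ℝ ∞ (fun u => p * lap (x ∘ e.symm) (fun u => (x ∘ e.symm) u i) u) u0 :=
    contDiffAt_const.mul s1
  have s5 : ContDiffAt ℝ ∞ (fun u => (-q) * ((x ∘ e.symm) u i + -c i)) u0 :=
    contDiffAt_const.mul s3
  rw [e1, hT.add _ _ s4 s5, hT.mul (fun _ => p) _ contDiffAt_const s1, hT.const,
    hT.mul (fun _ => -q) _ contDiffAt_const s3, hT.const, hT.add _ _ hXa contDiffAt_const, hT.const]
  rw [Complex.ofReal_neg, Complex.ofReal_neg, map_neg, map_neg]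
  ring

/-- Taylor form of the decomposition -/
theorem taylor_two (x : M → E3) (hx : ContMDiff (𝓡 2) 𝓘(ℝ, E3) ∞ x)
    (himm : ∀ p, Function.Injective (mfderiv (𝓡 2) 𝓘(ℝ, E3) x p)) (c : E3) (y1 y2 : M → E3)
    (l1 l2 : ℝ) (h : TwoEigen x c y1 y2 l1 l2) (e : OpenPartialHomeomorph M E2)
    (he : e ∈ atlas E2 M) (u0 : E2) (hu0 : u0 ∈ e.target) (T : (E2 → ℝ) → LL) (hT : IsTaylor u0 T)
    (i : Fin 3) :
    T (fun u => (x ∘ e.symm) u i) - algebraMap ℂ LL ((c i : ℝ) : ℂ)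
      = T ((fun p => y1 p i) ∘ e.symm) + T ((fun p => y2 p i) ∘ e.symm) ∧
    lapX dT dS (fun a => T (fun u => (x ∘ e.symm) u a)) (T ((fun p => y1 p i) ∘ e.symm))
      = algebraMap ℂ LL (l1 : ℂ) * T ((fun p => y1 p i) ∘ e.symm) ∧
    lapX dT dS (fun a => T (fun u => (x ∘ e.symm) u a)) (T ((fun p => y2 p i) ∘ e.symm))
      = algebraMap ℂ LL (l2 : ℂ) * T ((fun p => y2 p i) ∘ e.symm) := by
  obtain ⟨hy1, hy2, he1, he2, hxy⟩ := h
  have hnhds : e.target ∈ 𝓝 u0 := e.open_target.mem_nhds hu0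
  have hXs : ContDiffAt ℝ ∞ (x ∘ e.symm) u0 := (chart_contDiffOn x hx e he).contDiffAt hnhds
  have h1s : ContDiffAt ℝ ∞ ((fun p => y1 p i) ∘ e.symm) u0 :=
    (chart_contDiffOn_comp y1 hy1 i e he).contDiffAt hnhds
  have h2s : ContDiffAt ℝ ∞ ((fun p => y2 p i) ∘ e.symm) u0 :=
    (chart_contDiffOn_comp y2 hy2 i e he).contDiffAt hnhds
  obtain ⟨hdet, hlap⟩ := taylor_lap u0 T hT (x ∘ e.symm) hXs (chart_injective x hx himm e he u0 hu0)
  refine ⟨?_, ?_, ?_⟩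
  · have h1 : (fun u => (x ∘ e.symm) u i)
        = fun u => c i + ((fun u => ((fun p => y1 p i) ∘ e.symm) u
          + ((fun p => y2 p i) ∘ e.symm) u) u) := by
      funext u
      simp only [Function.comp_apply, hxy, PiLp.add_apply]
      ring
    rw [h1, hT.add (fun _ => c i) _ contDiffAt_const (h1s.add h2s), hT.const, hT.add _ _ h1s h2s]
    ring
  · rw [← hlap _ h1s, ← hT.const, ← hT.mul (fun _ => l1) _ contDiffAt_const h1s]
    apply hT.congr
    filter_upwards [hnhds] with u hu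
    exact he1 i e he u hu
  · rw [← hlap _ h2s, ← hT.const, ← hT.mul (fun _ => l2) _ contDiffAt_const h2s]
    apply hT.congr
    filter_upwards [hnhds] with u hu
    exact he2 i e he u hu

theorem lap_mul_const {Ω : Type} [Field Ω] [Algebra ℂ Ω] (A : Module.End ℂ Ω) (z : ℂ) (f : Ω) :
    A (algebraMap ℂ Ω z * f) = algebraMap ℂ Ω z * A f := by
  rw [← Algebra.smul_def, map_smul, Algebra.smul_def]

theorem algEq_of_two (x : M → E3) (hx : ContMDiff (𝓡 2) 𝓘(ℝ, E3) ∞ x)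
    (himm : ∀ p, Function.Injective (mfderiv (𝓡 2) 𝓘(ℝ, E3) x p)) (c : E3) (y1 y2 : M → E3)
    (l1 l2 : ℝ) (h : TwoEigen x c y1 y2 l1 l2) :
    AlgEq x c ((l1 : ℂ) + (l2 : ℂ)) ((l1 : ℂ) * (l2 : ℂ)) := by
  intro e he u0 hu0 T hT i
  obtain ⟨k0, k1, k2⟩ := taylor_two x hx himm c y1 y2 l1 l2 h e he u0 hu0 T hT i
  rw [k0, map_add, k1, k2, map_add, lap_mul_const, lap_mul_const, k1, k2, map_add, map_mul]
  ring

theorem two_final [ConnectedSpace M] (x : M → E3) (hx : ContMDiff (𝓡 2) 𝓘(ℝ, E3) ∞ x)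
    (himm : ∀ p, Function.Injective (mfderiv (𝓡 2) 𝓘(ℝ, E3) x p)) (c : E3) (y1 y2 : M → E3)
    (l1 l2 : ℝ) (h : TwoEigen x c y1 y2 l1 l2) (h1 : l1 ≠ 0) (h2 : l2 ≠ 0) :
    ∃ v, (∀ p, (∑ a, (x p a - c a) ^ 2) = v) ∧ ∀ p a, (l1 - l2) * (v * l1 - 2) * y1 p a = 0 ∧
      (l1 - l2) * (v * l2 - 2) * y2 p a = 0 := by
  have hH := algEq_of_two x hx himm c y1 y2 l1 l2 h
  have hb : (l1 : ℂ) * (l2 : ℂ) ≠ 0 :=
    mul_ne_zero (Complex.ofReal_ne_zero.2 h1) (Complex.ofReal_ne_zero.2 h2)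
  obtain ⟨v, hv⟩ := const_of_algEq x hx himm c _ _ hb hH
  refine ⟨v, hv, fun p i => ?_⟩
  set e := chartAt E2 p with he'
  have he : e ∈ atlas E2 M := chart_mem_atlas E2 p
  have hps : p ∈ e.source := mem_chart_source E2 p
  set u0 := e p with hu
  have hu0 : u0 ∈ e.target := e.map_source hps
  have hinv : e.symm u0 = p := e.left_inv hps
  obtain ⟨T, hT⟩ := exists_taylor u0
  have hnhds : e.target ∈ 𝓝 u0 := e.open_target.mem_nhds hu0
  have hXs : ContDiffAt ℝ ∞ (x ∘ e.symm) u0 := (chart_contDiffOn x hx e he).contDiffAt hnhds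
  have hXa : ∀ a, ContDiffAt ℝ ∞ (fun u => (x ∘ e.symm) u a) u0 :=
    fun a => (chart_contDiffOn_comp x hx a e he).contDiffAt hnhds
  obtain ⟨hdet, hlap⟩ := taylor_lap u0 T hT (x ∘ e.symm) hXs (chart_injective x hx himm e he u0 hu0)
  obtain ⟨-, -, r3⟩ := alg_two dT dS dT_dS_comm _ hdet _ _ hb (fun i => ((c i : ℝ) : ℂ))
    (hH e he u0 hu0 T hT)
  have hsq := T_sq hT (x ∘ e.symm) c hXa
  have hcst : (fun u => ∑ a, ((x ∘ e.symm) u a - c a) ^ 2) = fun _ => v := by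
    funext u
    exact hv (e.symm u)
  rw [hcst, hT.const] at hsq
  obtain ⟨k0, k1, k2⟩ := taylor_two x hx himm c y1 y2 l1 l2 h e he u0 hu0 T hT i
  have h1s : ContDiffAt ℝ ∞ ((fun p => y1 p i) ∘ e.symm) u0 :=
    (chart_contDiffOn_comp y1 h.1 i e he).contDiffAt hnhds
  have h2s : ContDiffAt ℝ ∞ ((fun p => y2 p i) ∘ e.symm) u0 :=
    (chart_contDiffOn_comp y2 h.2.1 i e he).contDiffAt hnhds
  have r := r3 i
  rw [← hsq, k0, map_add, k1, k2] at r
  have r' := congrArg (lapX dT dS (fun a => T (fun u => (x ∘ e.symm) u a))) r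
  have h2k : (2 : LL) = algebraMap ℂ LL 2 := by rw [map_ofNat]
  rw [h2k, lap_mul_const, map_add, lap_mul_const, lap_mul_const, lap_mul_const, map_add, k1, k2]
    at r'
  rw [h2k] at r
  set T1 := T ((fun p => y1 p i) ∘ e.symm) with hT1
  set T2 := T ((fun p => y2 p i) ∘ e.symm) with hT2
  have s1 : algebraMap ℂ LL (((l1 - l2) * (v * l1 - 2) : ℝ) : ℂ) * T1 = 0 := by
    rw [show (((l1 - l2) * (v * l1 - 2) : ℝ) : ℂ) = ((l1 : ℂ) - l2) * (v * l1 - 2) by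
      push_cast; ring]
    simp only [map_mul, map_sub]
    linear_combination r' - algebraMap ℂ LL (l2 : ℂ) * r
  have s2 : algebraMap ℂ LL (((l1 - l2) * (v * l2 - 2) : ℝ) : ℂ) * T2 = 0 := by
    rw [show (((l1 - l2) * (v * l2 - 2) : ℝ) : ℂ) = ((l1 : ℂ) - l2) * (v * l2 - 2) by
      push_cast; ring]
    simp only [map_mul, map_sub]
    linear_combination -r' + algebraMap ℂ LL (l1 : ℂ) * r
  have fin : ∀ (k : ℝ) (f : E2 → ℝ), ContDiffAt ℝ ∞ f u0 → algebraMap ℂ LL (k : ℂ) * T f = 0 →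
      k * f u0 = 0 := by
    intro k f hf hk
    rcases mul_eq_zero.1 hk with h3 | h3
    · have h4 : (k : ℂ) = 0 := (algebraMap ℂ LL).injective (h3.trans (map_zero _).symm)
      have h5 : k = 0 := by exact_mod_cast h4
      rw [h5, zero_mul]
    · have h4 := hT.value f 0 hf (by rw [h3, map_zero])
      have h5 : f u0 = 0 := by exact_mod_cast h4.symm
      rw [h5, mul_zero]
  have t1 := fin _ _ h1s s1
  have t2 := fin _ _ h2s s2
  simp only [Function.comp_apply, hinv] at t1 t2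
  exact ⟨t1, t2⟩

/-- the main theorem -/
theorem two_type [ConnectedSpace M] (x : M → E3) (hx : SmoothMap x) (hi : Immersed x) (c : E3) :
    (∀ p q : ℝ, q ≠ 0 → QuadEq x c p q → ∃ r : ℝ, 0 < r ∧ ∀ m, ‖x m - c‖ = r) ∧
    (∀ (y1 y2 : M → E3) (l1 l2 : ℝ), TwoEigen x c y1 y2 l1 l2 → l1 ≠ 0 → l2 ≠ 0 →
      (∃ r : ℝ, 0 < r ∧ ∀ m, ‖x m - c‖ = r) ∧ (l1 ≠ l2 → (∀ m, y1 m = 0) ∨ ∀ m, y2 m = 0)) ∧
    (CompactSpace M → ∀ (y1 y2 : M → E3) (l1 l2 : ℝ), TwoEigen x c y1 y2 l1 l2 →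
      (¬ ∃ v, ∀ m, y1 m = v) → (¬ ∃ v, ∀ m, y2 m = v) →
      l1 = l2 ∧ ∃ r : ℝ, 0 < r ∧ Set.range x = Metric.sphere c r) := by
  have himm := immersed_mfderiv x hx hi
  have hpos : ∀ v, (∀ m, (∑ a, (x m a - c a) ^ 2) = v) → ∃ r : ℝ, 0 < r ∧ ∀ m, ‖x m - c‖ = r := by
    intro v hv
    have hn : ∀ m, ‖x m - c‖ ^ 2 = v := by
      intro m
      rw [EuclideanSpace.norm_sq_eq, ← hv m]
      refine Finset.sum_congr rfl fun a _ => ?_
      rw [PiLp.sub_apply, Real.norm_eq_abs, sq_abs]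
    obtain ⟨m0⟩ : Nonempty M := inferInstance
    have hv0 : 0 ≤ v := by rw [← hn m0]; positivity
    have hv1 : v ≠ 0 := by
      intro h0
      apply sphereEnd_not_const x hx himm c
      intro m
      have := hn m
      rw [h0] at this
      have h2 : ‖x m - c‖ = 0 := by rwa [sq_eq_zero_iff] at this
      exact sub_eq_zero.1 (norm_eq_zero.1 h2)
    refine ⟨Real.sqrt v, Real.sqrt_pos.2 (lt_of_le_of_ne hv0 (Ne.symm hv1)), fun m => ?_⟩
    rw [← hn m, Real.sqrt_sq (norm_nonneg _)]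
  have main : ∀ (y1 y2 : M → E3) (l1 l2 : ℝ), TwoEigen x c y1 y2 l1 l2 → l1 ≠ 0 → l2 ≠ 0 →
      (∃ r : ℝ, 0 < r ∧ ∀ m, ‖x m - c‖ = r) ∧ (l1 ≠ l2 → (∀ m, y1 m = 0) ∨ ∀ m, y2 m = 0) := by
    intro y1 y2 l1 l2 h h1 h2
    obtain ⟨v, hv, hy⟩ := two_final x hx himm c y1 y2 l1 l2 h h1 h2
    refine ⟨hpos v hv, fun hl => ?_⟩
    have hl' : l1 - l2 ≠ 0 := sub_ne_zero.2 hl
    by_cases hk : v * l1 - 2 = 0
    · right
      have hk2 : v * l2 - 2 ≠ 0 := by
        intro hk2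
        have h3 : v * (l1 - l2) = 0 := by linear_combination hk - hk2
        rcases mul_eq_zero.1 h3 with h4 | h4
        · rw [h4] at hk
          norm_num at hk
        · exact hl' h4
      intro m
      ext i
      have := (hy m i).2
      rcases mul_eq_zero.1 this with h5 | h5
      · exact absurd h5 (mul_ne_zero hl' hk2)
      · rw [h5]; rfl
    · left
      intro m
      ext i
      have := (hy m i).1
      rcases mul_eq_zero.1 this with h5 | h5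
      · exact absurd h5 (mul_ne_zero hl' hk)
      · rw [h5]; rfl
  refine ⟨?_, main, ?_⟩
  · intro p q hq h
    obtain ⟨v, hv⟩ := const_of_algEq x hx himm c _ _ (Complex.ofReal_ne_zero.2 hq)
      (algEq_of_quad x hx himm c p q h)
    exact hpos v hv
  · intro hcomp y1 y2 l1 l2 h hn1 hn2
    have hz : ∀ (y : M → E3) (l : ℝ), SmoothMap y → (∀ a, IsEigen x (fun p => y p a) l) →
        (¬ ∃ v, ∀ m, y m = v) → l ≠ 0 := by
      intro y l hy hye hn h0
      apply hn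
      have h1 : ∀ a, ∃ v, ∀ p, y p a = v := by
        intro a
        have h2 := hye a
        rw [h0] at h2
        exact eigen_zero x hx himm y hy a h2
      choose v hv using h1
      refine ⟨WithLp.toLp 2 v, fun p => ?_⟩
      ext a
      exact hv a p
    have hl1 := hz y1 l1 h.1 h.2.2.1 hn1
    have hl2 := hz y2 l2 h.2.1 h.2.2.2.1 hn2
    obtain ⟨⟨r, hr0, hr⟩, hdich⟩ := main y1 y2 l1 l2 h hl1 hl2
    refine ⟨?_, ?_⟩
    · by_contra hne
      rcases hdich hne with h3 | h3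
      · exact hn1 ⟨0, h3⟩
      · exact hn2 ⟨0, h3⟩
    · exact sphere_end x hx himm c (r ^ 2) (fun m => by rw [hr m])

end

end Pool.Agent.Work.MP_abe657_gt.T2
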